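import Mathlib
import Pool.Agent.Y800.Lin
import Pool.Agent.TH118.CR.Irr
import Pool.Agent.K1H13.D4.Nondeg

/-!
# Irreducible groups whose elements have eigenvalues which agree up to roots of unity
-/

set_option linter.unusedSectionVars false

namespace Pool.Agent.K1H13.N

open Module Finset Function Pool.Agent.K1H13.D4

variable {K : Type} [Field K] [CharZero K] [IsAlgClosed K] {V : Type} [AddCommGroup V] [Module K V]
  [FiniteDimensional K V]

theorem nil_of_tr {y : End K V} (h : ∀ f : Polynomial K,
    LinearMap.trace K V (Polynomial.aeval y f * y) = 0) : IsNilpotent y := by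
  let b := Module.finBasis K V
  have h1 : IsNilpotent (LinearMap.toMatrix b b y) := by
    apply Pool.Agent.Y800.nilpotent_of_trace
    · intro m hm _
      exact Nat.cast_ne_zero.2 (by omega)
    · intro f
      have h2 := h f
      rw [LinearMap.trace_eq_matrix_trace K b, LinearMap.toMatrix_mul] at h2
      rw [← h2]
      congr 2
      have h3 : (LinearMap.toMatrixAlgEquiv b) (Polynomial.aeval y f) =
          Polynomial.aeval (LinearMap.toMatrixAlgEquiv b y) f :=
        (Polynomial.aeval_algHom_apply (LinearMap.toMatrixAlgEquiv b).toAlgHom y f).symm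
      exact h3.symm
  have h4 : IsNilpotent ((LinearMap.toMatrixAlgEquiv b).symm (LinearMap.toMatrix b b y)) :=
    h1.map (LinearMap.toMatrixAlgEquiv b).symm
  have h5 : (LinearMap.toMatrixAlgEquiv b).symm (LinearMap.toMatrix b b y) = y :=
    (LinearMap.toMatrixAlgEquiv b).symm_apply_apply y
  rwa [h5] at h4

variable {G : Type} [Group G] (r : Representation K G V)

/-- The span of the operators of the group. -/
def Sp : Submodule K (End K V) := Submodule.span K (Set.range r)

variable {r}

theorem Sp_mul {a b : End K V} (ha : a ∈ Sp r) (hb : b ∈ Sp r) : a * b ∈ Sp r := by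
  induction ha using Submodule.span_induction with
  | mem a ha =>
    obtain ⟨g, rfl⟩ := ha
    induction hb using Submodule.span_induction with
    | mem b hb =>
      obtain ⟨g', rfl⟩ := hb
      rw [← map_mul]
      exact Submodule.subset_span ⟨_, rfl⟩
    | zero => rw [mul_zero]; exact Submodule.zero_mem _
    | add x y _ _ hx hy => rw [mul_add]; exact Submodule.add_mem _ hx hy
    | smul c x _ hx => rw [mul_smul_comm]; exact Submodule.smul_mem _ _ hx
  | zero => rw [zero_mul]; exact Submodule.zero_mem _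
  | add x y _ _ hx hy => rw [add_mul]; exact Submodule.add_mem _ hx hy
  | smul c x _ hx => rw [smul_mul_assoc]; exact Submodule.smul_mem _ _ hx

theorem Sp_one : (1 : End K V) ∈ Sp r := Submodule.subset_span ⟨1, map_one r⟩

theorem Sp_aeval {a : End K V} (ha : a ∈ Sp r) (f : Polynomial K) :
    Polynomial.aeval a f ∈ Sp r := by
  have hpow : ∀ n : ℕ, a ^ n ∈ Sp r := by
    intro n
    induction n with
    | zero => rw [pow_zero]; exact Sp_one
    | succ n ih => rw [pow_succ]; exact Sp_mul ih ha
  rw [Polynomial.aeval_eq_sum_range]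
  exact Submodule.sum_mem _ fun i _ => Submodule.smul_mem _ _ (hpow i)

/-- The trace form on the span of an irreducible group is nondegenerate. -/
theorem Sp_nondeg [Nontrivial V] (hirr : ∀ W : Submodule K V, (∀ g, ∀ w ∈ W, r g w ∈ W) →
    W = ⊥ ∨ W = ⊤) {z : End K V} (hz : z ∈ Sp r)
    (h : ∀ g, LinearMap.trace K V (z * r g) = 0) : z = 0 := by
  have htr : ∀ z ∈ Sp r, (∀ g, LinearMap.trace K V (z * r g) = 0) →
      ∀ a ∈ Sp r, LinearMap.trace K V (z * a) = 0 := by
    intro z _ h a ha
    induction ha using Submodule.span_induction with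
    | mem a ha =>
      obtain ⟨g, rfl⟩ := ha
      exact h g
    | zero => rw [mul_zero, map_zero]
    | add x y _ _ hx hy => rw [mul_add, map_add, hx, hy, add_zero]
    | smul c x _ hx => rw [mul_smul_comm, map_smul, hx, smul_zero]
  let I : Submodule K (End K V) :=
    { carrier := {z | z ∈ Sp r ∧ ∀ g, LinearMap.trace K V (z * r g) = 0}
      zero_mem' := ⟨Submodule.zero_mem _, fun g => by rw [zero_mul, map_zero]⟩
      add_mem' := fun {a b} ha hb => ⟨Submodule.add_mem _ ha.1 hb.1, fun g => by
        rw [add_mul, map_add, ha.2, hb.2, add_zero]⟩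
      smul_mem' := fun c a ha => ⟨Submodule.smul_mem _ _ ha.1, fun g => by
        rw [smul_mul_assoc, map_smul, ha.2, smul_zero]⟩ }
  have hI1 : ∀ z ∈ I, ∀ a ∈ Sp r, z * a ∈ I := by
    intro z hz a ha
    refine ⟨Sp_mul hz.1 ha, fun g => ?_⟩
    rw [mul_assoc]
    exact htr z hz.1 hz.2 _ (Sp_mul ha (Submodule.subset_span ⟨g, rfl⟩))
  have hI2 : ∀ z ∈ I, ∀ a ∈ Sp r, a * z ∈ I := by
    intro z hz a ha
    refine ⟨Sp_mul ha hz.1, fun g => ?_⟩
    rw [mul_assoc, LinearMap.trace_mul_comm, mul_assoc]
    exact htr z hz.1 hz.2 _ (Sp_mul (Submodule.subset_span ⟨g, rfl⟩) ha)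
  obtain ⟨w, -, hw0, hw⟩ := engel I (fun y hy z hz => Submodule.sub_mem _
    (hI1 y hy z hz.1) (hI1 z hz y hy.1)) (fun y hy => nil_of_tr fun f => by
      rw [LinearMap.trace_mul_comm]
      exact htr y hy.1 hy.2 _ (Sp_aeval hy.1 f)) (W := ⊤) (fun _ _ _ _ => trivial) top_ne_bot
  let W : Submodule K V :=
    { carrier := {w | ∀ y ∈ I, y w = 0}
      zero_mem' := fun y _ => map_zero _
      add_mem' := fun {a b} ha hb y hy => by rw [map_add, ha y hy, hb y hy, add_zero]
      smul_mem' := fun c a ha y hy => by rw [map_smul, ha y hy, smul_zero] }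
  rcases hirr W (fun g w hw y hy => hw (y * r g) (hI1 y hy _ (Submodule.subset_span ⟨g, rfl⟩)))
    with h1 | h1
  · exfalso
    have h2 : w ∈ W := hw
    rw [h1, Submodule.mem_bot] at h2
    exact hw0 h2
  · apply LinearMap.ext
    intro x
    have h2 : x ∈ W := by
      rw [h1]
      trivial
    exact h2 z ⟨hz, h⟩

/-- The roots of the characteristic polynomial. -/
theorem eig_root {y : End K V} {β : K} (hβ : β ∈ y.charpoly.roots) : ∃ x : V, x ≠ 0 ∧
    y x = β • x := by
  have h1 : y.charpoly.IsRoot β := Polynomial.isRoot_of_mem_roots hβ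
  have h2 : y.HasEigenvalue β := (Module.End.hasEigenvalue_iff_isRoot_charpoly y β).2 h1
  obtain ⟨x, hx⟩ := h2.exists_hasEigenvector
  exact ⟨x, hx.2, hx.apply_eq_smul⟩

/-- If the eigenvalues of the elements of an irreducible group agree up to roots of unity of bounded
order, then a subgroup of finite index acts by scalars. -/
theorem burn [Nontrivial V] (hirr : ∀ W : Submodule K V, (∀ g, ∀ w ∈ W, r g w ∈ W) →
    W = ⊥ ∨ W = ⊤) {m : ℕ} (hm : 0 < m)
    (h : ∀ g, ∀ a b : K, (∃ x, x ≠ 0 ∧ r g x = a • x) → (∃ x, x ≠ 0 ∧ r g x = b • x) →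
      a ^ m = b ^ m) :
    ∃ H : Subgroup G, H.FiniteIndex ∧ ∀ g ∈ H, ∃ c : K, r g = c • 1 := by
  classical
  set d := finrank K V with hd
  have hd0 : 0 < d := Module.finrank_pos
  have hinv : ∀ g x, r g⁻¹ (r g x) = x := by
    intro g x
    rw [← Module.End.mul_apply, ← map_mul, inv_mul_cancel, map_one]
    rfl
  have hdet : ∀ g, LinearMap.det (r g) ≠ 0 := by
    intro g h0
    have h1 : LinearMap.det (r g⁻¹ * r g) = 1 := by
      rw [← map_mul, inv_mul_cancel, map_one, map_one]
    rw [map_mul, h0, mul_zero] at h1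
    exact zero_ne_one h1
  -- the finite set of values
  let M : Set K := {x | x ^ m = 1}
  have hM : M.Finite := by
    refine (Multiset.toFinset (Polynomial.nthRoots m (1 : K))).finite_toSet.subset ?_
    intro x hx
    rw [Finset.mem_coe, Multiset.mem_toFinset, Polynomial.mem_nthRoots hm]
    exact hx
  let F : Set K := (fun ζ : Fin d → K => (∑ i, ζ i) ^ d / ∏ i, ζ i) '' (Set.pi Set.univ fun _ => M)
  have hF : F.Finite := (Set.Finite.pi' fun _ => hM).image _ |>.subset (by
    rintro _ ⟨ζ, hζ, rfl⟩
    exact ⟨ζ, fun i => hζ i trivial, rfl⟩)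
  have hval : ∀ g, ∃ f ∈ F, LinearMap.trace K V (r g) ^ d = f * LinearMap.det (r g) := by
    intro g
    have hsplit : (r g).charpoly.Splits := IsAlgClosed.splits _
    have htr : LinearMap.trace K V (r g) = (r g).charpoly.roots.sum :=
      Module.End.trace_eq_sum_roots_charpoly_of_splits hsplit
    have hde : LinearMap.det (r g) = (r g).charpoly.roots.prod :=
      Module.End.det_eq_prod_roots_charpoly_of_splits hsplit
    have hcard : Multiset.card (r g).charpoly.roots = d := by
      rw [← hsplit.natDegree_eq_card_roots, LinearMap.charpoly_natDegree]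
    obtain ⟨β, hβ⟩ : ∃ β : Fin d → K, ((List.ofFn β : List K) : Multiset K) =
        (r g).charpoly.roots := by
      have hl : (r g).charpoly.roots.toList.length = d := by rw [Multiset.length_toList, hcard]
      refine ⟨fun i => (r g).charpoly.roots.toList.get (i.cast hl.symm), ?_⟩
      conv_rhs => rw [← Multiset.coe_toList (r g).charpoly.roots]
      congr 1
      apply List.ext_get
      · rw [List.length_ofFn, hl]
      · intro n h1 h2
        simp
    have hmem : ∀ i, β i ∈ (r g).charpoly.roots := by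
      intro i
      rw [← hβ, Multiset.mem_coe, List.mem_ofFn]
      exact ⟨i, rfl⟩
    rw [← hβ, Multiset.sum_coe, List.sum_ofFn] at htr
    rw [← hβ, Multiset.prod_coe, List.prod_ofFn] at hde
    set β0 := β ⟨0, hd0⟩ with hβ0
    have hβ00 : β0 ≠ 0 := by
      intro h0
      apply hdet g
      rw [hde]
      exact Finset.prod_eq_zero (Finset.mem_univ ⟨0, hd0⟩) h0
    have hζ : ∀ i, (β i / β0) ^ m = 1 := by
      intro i
      rw [div_pow, h g (β i) β0 (eig_root (hmem i)) (eig_root (hmem _)),
        div_self (pow_ne_zero _ hβ00)]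
    refine ⟨_, ⟨fun i => β i / β0, fun i _ => hζ i, rfl⟩, ?_⟩
    have e1 : ∏ i, β i / β0 ≠ 0 := by
      refine Finset.prod_ne_zero_iff.2 fun i _ h0 => ?_
      have h1 := hζ i
      rw [h0, zero_pow hm.ne'] at h1
      exact zero_ne_one h1
    have e2 : (∏ i, β i) = (∏ i, β i / β0) * β0 ^ d := by
      rw [Finset.prod_div_distrib, Finset.prod_const, Finset.card_univ, Fintype.card_fin,
        div_mul_cancel₀ _ (pow_ne_zero _ hβ00)]
    have e3 : (∑ i, β i) = (∑ i, β i / β0) * β0 := by
      rw [← Finset.sum_div, div_mul_cancel₀ _ hβ00]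
    rw [htr, hde, e2, e3, mul_pow]
    field_simp
  -- a finite spanning set
  obtain ⟨f, hf1, hf2, -⟩ := Submodule.exists_fun_fin_finrank_span_eq K (Set.range r)
  choose gi hgi using hf1
  have hlam : ∀ g, ∃ c : K, c ^ d = (LinearMap.det (r g))⁻¹ := fun g =>
    IsAlgClosed.exists_pow_nat_eq _ hd0
  choose lam hlam using hlam
  have hlam0 : ∀ g, lam g ≠ 0 := by
    intro g h0
    have h1 := hlam g
    rw [h0, zero_pow hd0.ne'] at h1
    exact inv_ne_zero (hdet g) h1.symm
  let S : Fin (finrank K (Submodule.span K (Set.range r))) → Set K := fun i =>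
    ⋃ c ∈ (fun f => f * LinearMap.det (r (gi i))) '' F, {x | x ^ d = c}
  have hS : ∀ i, (S i).Finite := by
    intro i
    refine (hF.image _).biUnion fun c _ => ?_
    refine (Multiset.toFinset (Polynomial.nthRoots d c)).finite_toSet.subset ?_
    intro x hx
    rw [Finset.mem_coe, Multiset.mem_toFinset, Polynomial.mem_nthRoots hd0]
    exact hx
  have hxS : ∀ g i, lam g * LinearMap.trace K V (r (g * gi i)) ∈ S i := by
    intro g i
    obtain ⟨f, hf, h1⟩ := hval (g * gi i)
    refine Set.mem_biUnion (x := f * LinearMap.det (r (gi i))) ⟨f, hf, rfl⟩ ?_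
    change (lam g * LinearMap.trace K V (r (g * gi i))) ^ d = f * LinearMap.det (r (gi i))
    rw [mul_pow, h1, hlam, map_mul, map_mul]
    have := hdet g
    field_simp
  let H : Subgroup G :=
    { carrier := {g | ∃ c : K, r g = c • 1}
      one_mem' := ⟨1, by rw [map_one, one_smul]⟩
      mul_mem' := by
        rintro a b ⟨c, hc⟩ ⟨c', hc'⟩
        exact ⟨c * c', by rw [map_mul, hc, hc', smul_mul_smul_comm, one_mul]⟩
      inv_mem' := by
        rintro a ⟨c, hc⟩
        have hc0 : c ≠ 0 := by
          rintro rfl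
          rw [zero_smul] at hc
          apply hdet a
          rw [hc, LinearMap.det_zero, zero_pow (by rw [← hd]; exact hd0.ne')]
        refine ⟨c⁻¹, ?_⟩
        apply LinearMap.ext
        intro x
        have h1 := hinv a x
        rw [hc, LinearMap.smul_apply, Module.End.one_apply, map_smul] at h1
        rw [LinearMap.smul_apply, Module.End.one_apply]
        conv_rhs => rw [← h1]
        rw [smul_smul, inv_mul_cancel₀ hc0, one_smul] }
  refine ⟨H, ?_, fun g hg => hg⟩
  have hfinT : Finite (∀ i, S i) := by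
    have : ∀ i, Finite (S i) := fun i => (hS i).to_subtype
    infer_instance
  refine Pool.Agent.TH118.CR.fi_of_map H (T := ∀ i, S i) (fun g i => ⟨_, hxS g i⟩) ?_
  intro g g' hgg
  have h1 : ∀ i, lam g * LinearMap.trace K V (r (g * gi i)) =
      lam g' * LinearMap.trace K V (r (g' * gi i)) := fun i =>
    congrArg Subtype.val (congrFun hgg i)
  have h2 : lam g • r g - lam g' • r g' = 0 := by
    refine Sp_nondeg hirr (Submodule.sub_mem _
      (Submodule.smul_mem _ _ (Submodule.subset_span ⟨g, rfl⟩))
      (Submodule.smul_mem _ _ (Submodule.subset_span ⟨g', rfl⟩))) ?_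
    have h3 : ∀ a ∈ Submodule.span K (Set.range f), LinearMap.trace K V
        ((lam g • r g - lam g' • r g') * a) = 0 := by
      intro a ha
      induction ha using Submodule.span_induction with
      | mem a ha =>
        obtain ⟨i, rfl⟩ := ha
        rw [← hgi, sub_mul, map_sub, smul_mul_assoc, smul_mul_assoc, map_smul, map_smul,
          ← map_mul, ← map_mul, smul_eq_mul, smul_eq_mul, h1, sub_self]
      | zero => rw [mul_zero, map_zero]
      | add x y _ _ hx hy => rw [mul_add, map_add, hx, hy, add_zero]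
      | smul c x _ hx => rw [mul_smul_comm, map_smul, hx, smul_zero]
    intro g1
    apply h3
    rw [hf2]
    exact Submodule.subset_span ⟨g1, rfl⟩
  refine ⟨(lam g')⁻¹ * lam g, ?_⟩
  have h3 : r g' = ((lam g')⁻¹ * lam g) • r g := by
    rw [mul_smul, sub_eq_zero.1 h2, smul_smul, inv_mul_cancel₀ (hlam0 g'), one_smul]
  apply LinearMap.ext
  intro x
  rw [map_mul, h3, Module.End.mul_apply, LinearMap.smul_apply, map_smul, hinv]
  rfl

end Pool.Agent.K1H13.N
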