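import Mathlib

/-!
# Roots of unity of bounded degree over the `ℓ`-adic numbers
-/

set_option linter.unusedSectionVars false

namespace Pool.Agent.K1H13.N

open Polynomial Nat

section

variable {ℓ : ℕ} [hℓ : Fact ℓ.Prime]

/-- A root of unity congruent to one modulo `ℓ ^ 2` is one. -/
theorem one_of_congr {L : Type*} [Field L] [Algebra ℚ_[ℓ] L] [Algebra ℤ_[ℓ] L]
    [IsScalarTower ℤ_[ℓ] ℚ_[ℓ] L] {η y : L} (hy : IsIntegral ℤ_[ℓ] y)
    (hη : η = 1 + (ℓ : L) ^ 2 * y) {k : ℕ} (hk : 0 < k) (h1 : η ^ k = 1) : η = 1 := by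
  -- reduce to prime order
  by_contra hne
  have hinj : Function.Injective (algebraMap ℚ_[ℓ] L) := (algebraMap ℚ_[ℓ] L).injective
  have hchar : CharZero L := charZero_of_injective_algebraMap hinj
  have hord : orderOf η ≠ 1 := fun h => hne (orderOf_eq_one_iff.1 h)
  have hord0 : orderOf η ≠ 0 := (isOfFinOrder_iff_pow_eq_one.2 ⟨k, hk, h1⟩).orderOf_pos.ne'
  obtain ⟨r, hr, hrd⟩ := Nat.exists_prime_and_dvd hord
  obtain ⟨j, hj⟩ := hrd
  have hj0 : j ≠ 0 := by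
    rintro rfl
    exact hord0 hj
  set θ := η ^ j with hθ
  have hθr : θ ^ r = 1 := by
    rw [hθ, ← pow_mul, mul_comm, ← hj, pow_orderOf_eq_one]
  have hθ1 : θ ≠ 1 := by
    intro h
    have h2 := orderOf_dvd_of_pow_eq_one h
    rw [hj] at h2
    have h3 := Nat.le_of_dvd (Nat.pos_of_ne_zero hj0) h2
    have h4 := hr.two_le
    nlinarith [Nat.pos_of_ne_zero hj0]
  obtain ⟨z, hz, hz1⟩ : ∃ z : L, IsIntegral ℤ_[ℓ] z ∧ θ = 1 + (ℓ : L) ^ 2 * z := by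
    rw [hθ]
    clear_value θ
    clear hθ hθr hθ1 hj hj0
    induction j with
    | zero => exact ⟨0, isIntegral_zero, by rw [pow_zero, mul_zero, add_zero]⟩
    | succ j ih =>
      obtain ⟨z, hz, hz1⟩ := ih
      have hℓi : IsIntegral ℤ_[ℓ] ((ℓ : L) ^ 2) := by
        have h3 : IsIntegral ℤ_[ℓ] (algebraMap ℤ_[ℓ] L ((ℓ : ℤ_[ℓ]) ^ 2)) := isIntegral_algebraMap
        rwa [map_pow, map_natCast] at h3
      refine ⟨z + y + (ℓ : L) ^ 2 * (z * y), (hz.add hy).add (hℓi.mul (hz.mul hy)), ?_⟩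
      rw [pow_succ, hz1, hη]
      ring
  have hz0 : z ≠ 0 := by
    rintro rfl
    apply hθ1
    rw [hz1, mul_zero, add_zero]
  have hℓ0 : (ℓ : L) ≠ 0 := Nat.cast_ne_zero.2 hℓ.1.ne_zero
  set w := (ℓ : L) ^ 2 * z with hw
  have hw0 : w ≠ 0 := mul_ne_zero (pow_ne_zero _ hℓ0) hz0
  -- expand
  have hexp : ∃ v : L, IsIntegral ℤ_[ℓ] v ∧ (1 + w) ^ r = 1 + r * w + w * w * v := by
    have hwi : IsIntegral ℤ_[ℓ] w := by
      have h3 : IsIntegral ℤ_[ℓ] (algebraMap ℤ_[ℓ] L ((ℓ : ℤ_[ℓ]) ^ 2)) := isIntegral_algebraMap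
      rw [map_pow, map_natCast] at h3
      exact h3.mul hz
    clear hθr hr hj
    induction r with
    | zero => exact ⟨0, isIntegral_zero, by simp⟩
    | succ r ih =>
      obtain ⟨v, hv, hv1⟩ := ih
      have hri : IsIntegral ℤ_[ℓ] ((r : L)) := by
        have h3 : IsIntegral ℤ_[ℓ] (algebraMap ℤ_[ℓ] L (r : ℤ_[ℓ])) := isIntegral_algebraMap
        rwa [map_natCast] at h3
      refine ⟨v + r + w * v, (hv.add hri).add (hwi.mul hv), ?_⟩
      rw [pow_succ, hv1]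
      push_cast
      ring
  obtain ⟨v, hv, hv1⟩ := hexp
  rw [← hz1, hθr] at hv1
  have h2 : (r : L) = (ℓ : L) ^ 2 * -(z * v) := by
    have h3 : w * (r + w * v) = 0 := by linear_combination -hv1
    have h4 := (mul_eq_zero.1 h3).resolve_left hw0
    rw [hw] at h4
    linear_combination h4
  -- `r / ℓ ^ 2` is integral
  have h3 : IsIntegral ℤ_[ℓ] ((r : ℚ_[ℓ]) / (ℓ : ℚ_[ℓ]) ^ 2) := by
    have h4 : IsIntegral ℤ_[ℓ] (-(z * v)) := (hz.mul hv).neg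
    have h5 : -(z * v) = algebraMap ℚ_[ℓ] L ((r : ℚ_[ℓ]) / (ℓ : ℚ_[ℓ]) ^ 2) := by
      rw [map_div₀, map_pow, map_natCast, map_natCast, h2]
      field_simp
    rw [h5] at h4
    exact (isIntegral_algebraMap_iff hinj).1 h4
  obtain ⟨x, hx⟩ := IsIntegrallyClosed.isIntegral_iff.1 h3
  have h4 : ‖((r : ℚ_[ℓ]) / (ℓ : ℚ_[ℓ]) ^ 2)‖ ≤ 1 := by
    rw [← hx]
    exact PadicInt.norm_le_one x
  rw [norm_div, norm_pow, Padic.norm_p] at h4
  have hℓp : (0 : ℝ) < ℓ := Nat.cast_pos.2 hℓ.1.pos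
  have h5 : ‖(r : ℚ_[ℓ])‖ ≤ (ℓ : ℝ)⁻¹ ^ 2 := by
    rwa [div_le_one (by positivity)] at h4
  have h6 : (ℓ : ℝ)⁻¹ ≤ ‖(r : ℚ_[ℓ])‖ := by
    by_cases hrl : r = ℓ
    · rw [hrl, Padic.norm_p]
    · have h7 : ‖(r : ℚ_[ℓ])‖ = 1 := by
        rw [Padic.norm_natCast_eq_one_iff]
        exact (Nat.coprime_primes hℓ.1 hr).2 fun h => hrl h.symm
      rw [h7]
      exact inv_le_one_of_one_le₀ (by exact_mod_cast hℓ.1.one_le)
  have h7 : (ℓ : ℝ)⁻¹ < 1 := inv_lt_one_of_one_lt₀ (by exact_mod_cast hℓ.1.one_lt)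
  have h8 : (0 : ℝ) < (ℓ : ℝ)⁻¹ := by positivity
  nlinarith

/-- Roots of unity of bounded degree have bounded order. -/
theorem ru_bound {L : Type*} [Field L] [Algebra ℚ_[ℓ] L] [Algebra ℤ_[ℓ] L]
    [IsScalarTower ℤ_[ℓ] ℚ_[ℓ] L] (D : ℕ) {ζ : L} {k : ℕ} (hk : 0 < k) (h1 : ζ ^ k = 1)
    (hD : (minpoly ℚ_[ℓ] ζ).natDegree ≤ D) : ζ ^ (((ℓ ^ 2) ^ D)!) = 1 := by
  have hζi : IsIntegral ℤ_[ℓ] ζ := by
    refine ⟨X ^ k - 1, monic_X_pow_sub_C (1 : ℤ_[ℓ]) hk.ne', ?_⟩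
    rw [eval₂_sub, eval₂_pow, eval₂_X, eval₂_one, h1, sub_self]
  set q := minpoly ℤ_[ℓ] ζ with hq
  have hqm : q.Monic := minpoly.monic hζi
  have hqd : q.natDegree ≤ D := by
    have h2 : minpoly ℚ_[ℓ] ζ = q.map (algebraMap ℤ_[ℓ] ℚ_[ℓ]) :=
      minpoly.isIntegrallyClosed_eq_field_fractions ℚ_[ℓ] L hζi
    rwa [h2, hqm.natDegree_map] at hD
  -- the coefficients of the powers
  have hpow : ∀ i : ℕ, ζ ^ i = ∑ t ∈ Finset.range q.natDegree,
      algebraMap ℤ_[ℓ] L ((X ^ i %ₘ q).coeff t) * ζ ^ t := by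
    intro i
    have h2 : aeval ζ (X ^ i %ₘ q) = ζ ^ i := by
      have h3 := modByMonic_add_div (X ^ i : ℤ_[ℓ][X]) q
      have h4 := congrArg (aeval ζ) h3
      rw [map_add, map_mul, hq, minpoly.aeval, zero_mul, add_zero, map_pow, aeval_X] at h4
      exact h4
    by_cases hq1 : q = 1
    · exfalso
      have h3 := minpoly.aeval ℤ_[ℓ] ζ
      rw [← hq, hq1, map_one] at h3
      exact one_ne_zero h3
    rw [← h2, aeval_eq_sum_range' (natDegree_modByMonic_lt _ hqm hq1)]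
    refine Finset.sum_congr rfl fun t _ => ?_
    rw [Algebra.smul_def]
  let f : Fin ((ℓ ^ 2) ^ q.natDegree + 1) → (Fin q.natDegree → ZMod (ℓ ^ 2)) := fun i t =>
    PadicInt.toZModPow 2 ((X ^ (i : ℕ) %ₘ q).coeff t)
  have hne : NeZero (ℓ ^ 2) := ⟨pow_ne_zero _ hℓ.1.ne_zero⟩
  obtain ⟨i, j, hij, hf⟩ : ∃ i j, i ≠ j ∧ f i = f j := by
    apply Fintype.exists_ne_map_eq_of_card_lt
    rw [Fintype.card_fun, ZMod.card, Fintype.card_fin, Fintype.card_fin]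
    exact Nat.lt_succ_self _
  have key : ∀ i j : Fin ((ℓ ^ 2) ^ q.natDegree + 1), i < j → f i = f j →
      ζ ^ (((ℓ ^ 2) ^ D)!) = 1 := by
    intro i j hij hf
    have hc : ∀ t : Fin q.natDegree, ∃ e : ℤ_[ℓ], (X ^ (j : ℕ) %ₘ q).coeff t =
        (X ^ (i : ℕ) %ₘ q).coeff t + (ℓ : ℤ_[ℓ]) ^ 2 * e := by
      intro t
      have h2 : PadicInt.toZModPow 2 ((X ^ (j : ℕ) %ₘ q).coeff t - (X ^ (i : ℕ) %ₘ q).coeff t) =
          0 := by
        rw [map_sub, sub_eq_zero]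
        exact (congrFun hf t).symm
      rw [← RingHom.mem_ker, PadicInt.ker_toZModPow, Ideal.mem_span_singleton] at h2
      obtain ⟨e, he⟩ := h2
      exact ⟨e, by rw [← he]; ring⟩
    choose e he using hc
    have hζ0 : ζ ≠ 0 := by
      rintro rfl
      rw [zero_pow hk.ne'] at h1
      exact zero_ne_one h1
    have hinv : IsIntegral ℤ_[ℓ] ζ⁻¹ := by
      have h3 : ζ⁻¹ = ζ ^ (k - 1) := by
        apply inv_eq_of_mul_eq_one_left
        rw [← pow_succ, Nat.sub_add_cancel hk, h1]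
      rw [h3]
      exact hζi.pow _
    have h4 : ζ ^ (j : ℕ) = ζ ^ (i : ℕ) + (ℓ : L) ^ 2 *
        ∑ t : Fin q.natDegree, algebraMap ℤ_[ℓ] L (e t) * ζ ^ (t : ℕ) := by
      rw [hpow j, hpow i, Finset.sum_range, Finset.sum_range, Finset.mul_sum,
        ← Finset.sum_add_distrib]
      refine Finset.sum_congr rfl fun t _ => ?_
      rw [he, map_add, map_mul, map_pow, map_natCast]
      ring
    have h5 : ζ ^ ((j : ℕ) - i) = 1 + (ℓ : L) ^ 2 *
        (ζ⁻¹ ^ (i : ℕ) * ∑ t : Fin q.natDegree, algebraMap ℤ_[ℓ] L (e t) * ζ ^ (t : ℕ)) := by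
      have h6 : ζ ^ (j : ℕ) = ζ ^ ((j : ℕ) - i) * ζ ^ (i : ℕ) := by
        rw [← pow_add, Nat.sub_add_cancel (le_of_lt hij)]
      rw [h6] at h4
      have h7 : ζ ^ (i : ℕ) ≠ 0 := pow_ne_zero _ hζ0
      apply mul_right_cancel₀ h7
      rw [h4, inv_pow]
      field_simp
    have h8 := one_of_congr (ℓ := ℓ) ((hinv.pow _).mul (IsIntegral.sum _ fun t _ =>
      isIntegral_algebraMap.mul (hζi.pow _))) h5 hk (by rw [← pow_mul, mul_comm, pow_mul, h1,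
        one_pow])
    have h9 : ((j : ℕ) - i) ∣ ((ℓ ^ 2) ^ D)! := by
      apply Nat.dvd_factorial
      · exact Nat.sub_pos_of_lt hij
      · have h10 : (ℓ ^ 2) ^ q.natDegree ≤ (ℓ ^ 2) ^ D :=
          Nat.pow_le_pow_right (Nat.pos_of_ne_zero hne.1) hqd
        have h11 := j.2
        omega
    obtain ⟨c, hc⟩ := h9
    rw [hc, pow_mul, h8, one_pow]
  rcases lt_or_gt_of_ne hij with h | h
  · exact key i j h hf
  · exact key j i h hf.symm

/-- Eigenvalues of an operator over the `ℓ`-adic numbers which agree up to a root of unity. -/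
theorem eig_bound {V : Type} [AddCommGroup V] [Module ℚ_[ℓ] V] [FiniteDimensional ℚ_[ℓ] V] :
    ∃ m : ℕ, 0 < m ∧ ∀ T : Module.End ℚ_[ℓ] V, ∀ a b : AlgebraicClosure ℚ_[ℓ],
      (∃ x, x ≠ 0 ∧ T.baseChange (AlgebraicClosure ℚ_[ℓ]) x = a • x) →
      (∃ x, x ≠ 0 ∧ T.baseChange (AlgebraicClosure ℚ_[ℓ]) x = b • x) → b ≠ 0 →
      (∃ k : ℕ, 0 < k ∧ a ^ k = b ^ k) → a ^ m = b ^ m := by
  set n := Module.finrank ℚ_[ℓ] V with hn
  refine ⟨((ℓ ^ 2) ^ (n * n))!, Nat.factorial_pos _, ?_⟩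
  rintro T a b ha hb hb0 ⟨k, hk, hab⟩
  have hroot : ∀ c : AlgebraicClosure ℚ_[ℓ],
      (∃ x, x ≠ 0 ∧ T.baseChange (AlgebraicClosure ℚ_[ℓ]) x = c • x) →
      IsIntegral ℚ_[ℓ] c ∧ (minpoly ℚ_[ℓ] c).natDegree ≤ n := by
    rintro c ⟨x, hx0, hx⟩
    have h1 : Module.End.HasEigenvalue (R := AlgebraicClosure ℚ_[ℓ])
        (T.baseChange (AlgebraicClosure ℚ_[ℓ])) c :=
      Module.End.hasEigenvalue_of_hasEigenvector ⟨Module.End.mem_eigenspace_iff.2 hx, hx0⟩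
    have h2 := (Module.End.hasEigenvalue_iff_isRoot_charpoly _ c).1 h1
    rw [LinearMap.charpoly_baseChange, IsRoot.def, eval_map_algebraMap] at h2
    refine ⟨⟨T.charpoly, T.charpoly_monic, h2⟩, ?_⟩
    have h3 := minpoly.min ℚ_[ℓ] c T.charpoly_monic h2
    have h4 := natDegree_le_natDegree h3
    rwa [LinearMap.charpoly_natDegree, ← hn] at h4
  obtain ⟨ha1, ha2⟩ := hroot a ha
  obtain ⟨hb1, hb2⟩ := hroot b hb
  have h1 : (a / b) ^ k = 1 := by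
    rw [div_pow, hab, div_self (pow_ne_zero _ hb0)]
  have h2 : (minpoly ℚ_[ℓ] (a / b)).natDegree ≤ n * n := by
    let E := IntermediateField.adjoin ℚ_[ℓ] {a} ⊔ IntermediateField.adjoin ℚ_[ℓ] {b}
    have hfa : FiniteDimensional ℚ_[ℓ] (IntermediateField.adjoin ℚ_[ℓ] {a}) :=
      IntermediateField.adjoin.finiteDimensional ha1
    have hfb : FiniteDimensional ℚ_[ℓ] (IntermediateField.adjoin ℚ_[ℓ] {b}) :=
      IntermediateField.adjoin.finiteDimensional hb1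
    have hfE : FiniteDimensional ℚ_[ℓ] E := inferInstance
    have h3 : Module.finrank ℚ_[ℓ] E ≤ n * n := by
      refine (IntermediateField.finrank_sup_le _ _).trans ?_
      rw [IntermediateField.adjoin.finrank ha1, IntermediateField.adjoin.finrank hb1]
      exact Nat.mul_le_mul ha2 hb2
    have haE : a ∈ E := (le_sup_left : IntermediateField.adjoin ℚ_[ℓ] {a} ≤ E)
      (IntermediateField.mem_adjoin_simple_self _ a)
    have hbE : b ∈ E := (le_sup_right : IntermediateField.adjoin ℚ_[ℓ] {b} ≤ E)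
      (IntermediateField.mem_adjoin_simple_self _ b)
    have h4 : (minpoly ℚ_[ℓ] (⟨a / b, E.div_mem haE hbE⟩ : E)).natDegree ≤
        Module.finrank ℚ_[ℓ] E := minpoly.natDegree_le _
    have h5 : minpoly ℚ_[ℓ] (a / b) = minpoly ℚ_[ℓ] (⟨a / b, E.div_mem haE hbE⟩ : E) :=
      (IntermediateField.minpoly_eq (⟨a / b, E.div_mem haE hbE⟩ : E)).symm
    rw [h5]
    exact h4.trans h3
  have h3 := ru_bound (n * n) hk h1 h2
  rw [div_pow, div_eq_one_iff_eq (pow_ne_zero _ hb0)] at h3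
  exact h3

end

end Pool.Agent.K1H13.N
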