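import Mathlib
import Pool.Agent.TH118.CR.Final

/-!
# Pairings of equivariant maps
-/

set_option linter.unusedSectionVars false

namespace Pool.Agent.K1H13.N

open Module Pool.Agent.H204R3.SP Pool.Agent.H204R3.GP Pool.Agent.W522.U Pool.Agent.TH118.CR

variable {K : Type} [Field K] [CharZero K] [IsAlgClosed K] {X : Type} [AddCommGroup X] [Module K X]
  [FiniteDimensional K X] {Γ : Type} [Group Γ] {R : Representation K Γ X} {χ : Γ →* K}

/-- The operators which commute with a subgroup of finite index. -/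
def Cm (R : Representation K Γ X) : Submodule K (End K X) where
  carrier := {b | ∃ Δ : Subgroup Γ, Δ.FiniteIndex ∧ ∀ g ∈ Δ, ∀ x, b (R g x) = R g (b x)}
  zero_mem' := ⟨⊤, inferInstance, fun g _ x => by
    rw [LinearMap.zero_apply, LinearMap.zero_apply, map_zero]⟩
  add_mem' := by
    rintro a b ⟨Δ, hΔ, ha⟩ ⟨Δ', hΔ', hb⟩
    exact ⟨Δ ⊓ Δ', inferInstance, fun g hg x => by
      rw [LinearMap.add_apply, LinearMap.add_apply, map_add, ha g hg.1, hb g hg.2]⟩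
  smul_mem' := by
    rintro c a ⟨Δ, hΔ, ha⟩
    exact ⟨Δ, hΔ, fun g hg x => by
      rw [LinearMap.smul_apply, LinearMap.smul_apply, map_smul, ha g hg]⟩

theorem Cm_mul {a b : End K X} (ha : a ∈ Cm R) (hb : b ∈ Cm R) : a * b ∈ Cm R := by
  obtain ⟨Δ, hΔ, ha⟩ := ha
  obtain ⟨Δ', hΔ', hb⟩ := hb
  exact ⟨Δ ⊓ Δ', inferInstance, fun g hg x => by
    rw [Module.End.mul_apply, Module.End.mul_apply, hb g hg.2, ha g hg.1]⟩

/-- A subgroup of finite index acts on the pairing of `U` and `U'` by `χ`. -/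
def Inv (R : Representation K Γ X) (χ : Γ →* K) (B : X →ₗ[K] X →ₗ[K] K)
    (U U' : Submodule K X) : Prop :=
  ∃ Δ : Subgroup Γ, Δ.FiniteIndex ∧ ∀ g ∈ Δ, ∀ u ∈ U, ∀ v ∈ U', B (R g u) (R g v) = χ g * B u v

theorem Inv.flip {B : X →ₗ[K] X →ₗ[K] K} {U U' : Submodule K X} (h : Inv R χ B U U') :
    Inv R χ B.flip U' U := by
  obtain ⟨Δ, hΔ, h⟩ := h
  exact ⟨Δ, hΔ, fun g hg u hu v hv => h g hg v hv u hu⟩

/-- Schur's lemma for pairings. -/
theorem schur_pair {U U' : Submodule K X} (hU : SI R U) (hU' : SI R U')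
    {B D : X →ₗ[K] X →ₗ[K] K} (hB : Inv R χ B U U') (hD : Inv R χ D U U')
    (h0 : ∃ u ∈ U, ∃ v ∈ U', B u v ≠ 0) : ∃ c : K, ∀ u ∈ U, ∀ v ∈ U', D u v = c * B u v := by
  by_cases hD0 : ∃ u ∈ U, ∃ v ∈ U', D u v ≠ 0
  swap
  · push Not at hD0
    exact ⟨0, fun u hu v hv => by rw [hD0 u hu v hv, zero_mul]⟩
  obtain ⟨Δ, hΔ, hBi⟩ := hB
  obtain ⟨Δ', hΔ', hDi⟩ := hD
  obtain ⟨Δ1, hΔ1, h1⟩ := hU.2.1
  obtain ⟨Δ2, hΔ2, h2⟩ := hU'.2.1
  have hbij := (du_bij hU hU' hΔ B h0 hBi).2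
  have hl := du_left hU hU'.2.1 hΔ h0 hBi
  let e := LinearEquiv.ofBijective _ hbij
  obtain ⟨p, hp⟩ := exists_pr U
  let H : X →ₗ[K] X := U.subtype ∘ₗ e.symm.toLinearMap ∘ₗ (D.compl₁₂ U.subtype U'.subtype) ∘ₗ p
  have hHU : ∀ x, H x ∈ U := fun x => SetLike.coe_mem _
  have hH : ∀ u ∈ U, ∀ v ∈ U', B (H u) v = D u v := by
    intro u hu v hv
    have h3 : e (e.symm (D.compl₁₂ U.subtype U'.subtype (p u))) =
      D.compl₁₂ U.subtype U'.subtype (p u) := e.apply_symm_apply _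
    have h4 := LinearMap.congr_fun h3 ⟨v, hv⟩
    have h5 : p u = ⟨u, hu⟩ := hp ⟨u, hu⟩
    change B (H u) v = D (p u : X) v at h4
    rw [h4, h5]
  have h0' : ∃ u ∈ U, H u ≠ 0 := by
    obtain ⟨u, hu, v, hv, huv⟩ := hD0
    refine ⟨u, hu, fun h => huv ?_⟩
    rw [← hH u hu v hv, h, map_zero, LinearMap.zero_apply]
  obtain ⟨a, -, ha⟩ := self_twist hU (Δ := (Δ ⊓ Δ') ⊓ (Δ1 ⊓ Δ2)) inferInstance
    (fun u _ => hHU u) h0' (κ := fun _ => 1) (by
      intro g hg u hu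
      rw [one_smul, ← sub_eq_zero]
      refine hl _ (U.sub_mem (hHU _) (h1 g hg.2.1 _ (hHU _))) fun v hv => ?_
      have hgv := h2 _ (Δ2.inv_mem hg.2.2) v hv
      have h4 := hBi g hg.1.1 _ (hHU u) _ hgv
      have h5 := hDi g hg.1.2 _ hu _ hgv
      rw [Rinv'] at h4 h5
      rw [map_sub, LinearMap.sub_apply, hH _ (h1 g hg.2.1 u hu) v hv, h5, h4,
        hH u hu _ hgv, sub_self])
  exact ⟨a, fun u hu v hv => by rw [← hH u hu v hv, ha u hu, map_smul, LinearMap.smul_apply,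
    smul_eq_mul]⟩

/-- The equivariant operators which factor through the projection `p`. -/
def MM (R : Representation K Γ X) (p : End K X) : Submodule K (End K X) where
  carrier := {t | t ∈ Cm R ∧ ∀ x, t (p x) = t x}
  zero_mem' := ⟨(Cm R).zero_mem, fun _ => rfl⟩
  add_mem' := fun {a b} ha hb => ⟨(Cm R).add_mem ha.1 hb.1, fun x => by
    rw [LinearMap.add_apply, LinearMap.add_apply, ha.2, hb.2]⟩
  smul_mem' := fun c a ha => ⟨(Cm R).smul_mem c ha.1, fun x => by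
    rw [LinearMap.smul_apply, LinearMap.smul_apply, ha.2]⟩

theorem MM_mul {p b t : End K X} (hb : b ∈ Cm R) (ht : t ∈ MM R p) : b * t ∈ MM R p :=
  ⟨Cm_mul hb ht.1, fun x => by rw [Module.End.mul_apply, Module.End.mul_apply, ht.2]⟩

/-- The data: dual strongly irreducible subspaces, their pairing and projections onto them. -/
structure Pr (R : Representation K Γ X) (χ : Γ →* K) (ω : X →ₗ[K] X →ₗ[K] K)
    (U U' : Submodule K X) (B : X →ₗ[K] X →ₗ[K] K) (p p' : End K X) (u₀ v₀ : X) : Prop where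
  nd : ∀ x, (∀ y, ω x y = 0) → x = 0
  skew : ∀ x y, ω x y = -ω y x
  inv : ∀ g x y, ω (R g x) (R g y) = χ g * ω x y
  ss : HasProj R
  si : SI R U
  si' : SI R U'
  binv : Inv R χ B U U'
  pC : p ∈ Cm R
  pU : ∀ x, p x ∈ U
  pu : ∀ u ∈ U, p u = u
  pC' : p' ∈ Cm R
  pU' : ∀ x, p' x ∈ U'
  pu' : ∀ u ∈ U', p' u = u
  hu₀ : u₀ ∈ U
  hv₀ : v₀ ∈ U'
  one : B u₀ v₀ = 1

variable {ω B : X →ₗ[K] X →ₗ[K] K} {U U' : Submodule K X} {p p' : End K X} {u₀ v₀ : X}

theorem Pr.swap (h : Pr R χ ω U U' B p p' u₀ v₀) : Pr R χ ω U' U B.flip p' p v₀ u₀ where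
  nd := h.nd
  skew := h.skew
  inv := h.inv
  ss := h.ss
  si := h.si'
  si' := h.si
  binv := h.binv.flip
  pC := h.pC'
  pU := h.pU'
  pu := h.pu'
  pC' := h.pC
  pU' := h.pU
  pu' := h.pu
  hu₀ := h.hv₀
  hv₀ := h.hu₀
  one := h.one

theorem Cm_inv (h : Pr R χ ω U U' B p p' u₀ v₀) {t t' : End K X} (ht : t ∈ Cm R) (ht' : t' ∈ Cm R)
    (A A' : Submodule K X) : Inv R χ (ω.compl₁₂ t t') A A' := by
  obtain ⟨Δ, hΔ, h1⟩ := ht
  obtain ⟨Δ', hΔ', h2⟩ := ht'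
  exact ⟨Δ ⊓ Δ', inferInstance, fun g hg u _ v _ => by
    rw [LinearMap.compl₁₂_apply, LinearMap.compl₁₂_apply, h1 g hg.1, h2 g hg.2, h.inv]⟩

/-- The pairing of two equivariant maps. -/
theorem Pr.gram (h : Pr R χ ω U U' B p p' u₀ v₀) {t t' : End K X} (ht : t ∈ Cm R)
    (ht' : t' ∈ Cm R) {u v : X} (hu : u ∈ U) (hv : v ∈ U') :
    ω (t u) (t' v) = ω (t u₀) (t' v₀) * B u v := by
  obtain ⟨c, hc⟩ := schur_pair h.si h.si' h.binv (Cm_inv h ht ht' U U')
    ⟨u₀, h.hu₀, v₀, h.hv₀, by rw [h.one]; exact one_ne_zero⟩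
  have h1 := hc u hu v hv
  have h2 := hc u₀ h.hu₀ v₀ h.hv₀
  rw [LinearMap.compl₁₂_apply] at h1 h2
  rw [h.one, mul_one] at h2
  rw [h1, h2]

/-- The pairing of the spaces of equivariant maps is nondegenerate. -/
theorem Pr.gram_nd (h : Pr R χ ω U U' B p p' u₀ v₀) {t : End K X} (ht : t ∈ MM R p)
    (h0 : ∀ t' ∈ MM R p', ω (t u₀) (t' v₀) = 0) : t = 0 := by
  by_contra hne
  obtain ⟨u, hu, hu0⟩ : ∃ u ∈ U, t u ≠ 0 := by
    by_contra hcon
    push Not at hcon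
    apply hne
    apply LinearMap.ext
    intro x
    rw [← ht.2 x, hcon _ (h.pU x), LinearMap.zero_apply]
  obtain ⟨W', hW', w, hw, huw⟩ := exists_ne_on h.ss (ω (t u)) (fun h1 => hu0 (h.nd _ fun y => by
    rw [h1, LinearMap.zero_apply]))
  obtain ⟨Δt, hΔt, htc⟩ := ht.1
  have hd1 : Du R χ U W' := by
    refine ⟨Δt, hΔt, ω.comp t, ⟨u, hu, w, hw, huw⟩, fun g hg u _ v _ => ?_⟩
    rw [LinearMap.comp_apply, LinearMap.comp_apply, htc g hg, h.inv]
  have hd2 : Du R χ U U' := by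
    obtain ⟨Δ, hΔ, h2⟩ := h.binv
    exact ⟨Δ, hΔ, B, ⟨u₀, h.hu₀, v₀, h.hv₀, by rw [h.one]; exact one_ne_zero⟩, h2⟩
  obtain ⟨Δ, hΔ, T, hTU, hT0, hT⟩ := hd2.tw h.si h.si' hW' hd1
  obtain ⟨Δp, hΔp, hpc⟩ := h.pC'
  have ht' : T * p' ∈ MM R p' := by
    refine ⟨⟨Δ ⊓ Δp, inferInstance, fun g hg x => ?_⟩, fun x => ?_⟩
    · rw [Module.End.mul_apply, Module.End.mul_apply, hpc g hg.2, hT g hg.1 _ (h.pU' x), one_smul]
    · rw [Module.End.mul_apply, Module.End.mul_apply, h.pu' _ (h.pU' x)]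
  have h3 := h0 _ ht'
  apply huw
  have h4 : w ∈ U'.map T := by
    rw [tw_map h.si' hW' hΔ hTU hT0 hT]
    exact hw
  obtain ⟨v, hv, rfl⟩ := h4
  have h5 := h.gram ht.1 ht'.1 hu hv
  rw [h3, zero_mul, Module.End.mul_apply, h.pu' v hv] at h5
  exact h5

/-- Dual bases. -/
theorem dual_bases {M M' : Type*} [AddCommGroup M] [Module K M] [FiniteDimensional K M]
    [AddCommGroup M'] [Module K M'] [FiniteDimensional K M'] (β : M →ₗ[K] M' →ₗ[K] K)
    (h1 : ∀ m, (∀ m', β m m' = 0) → m = 0) (h2 : ∀ m', (∀ m, β m m' = 0) → m' = 0) :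
    ∃ (n : ℕ) (t : Fin n → M) (t' : Fin n → M'), (∀ m, m = ∑ i, β m (t' i) • t i) ∧
      (∀ m', m' = ∑ i, β (t i) m' • t' i) ∧ ∀ i j, β (t i) (t' j) = if i = j then 1 else 0 := by
  classical
  have hi1 : Function.Injective β := by
    rw [injective_iff_map_eq_zero]
    intro m hm
    exact h1 m fun m' => by rw [hm, LinearMap.zero_apply]
  have hi2 : Function.Injective β.flip := by
    rw [injective_iff_map_eq_zero]
    intro m hm
    exact h2 m fun m' => by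
      have h3 := LinearMap.congr_fun hm m'
      exact h3
  have e1 := LinearMap.finrank_le_finrank_of_injective hi1
  have e2 := LinearMap.finrank_le_finrank_of_injective hi2
  rw [Subspace.dual_finrank_eq] at e1 e2
  have hfin : finrank K M' = finrank K (Dual K M) := by
    rw [Subspace.dual_finrank_eq]
    exact le_antisymm e2 e1
  let e := LinearEquiv.ofInjectiveOfFinrankEq β.flip hi2 hfin
  let b := Module.finBasis K M
  have he : ∀ m' m, e m' m = β m m' := fun _ _ => rfl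
  have hcoord : ∀ i m, β m (e.symm (b.coord i)) = b.repr m i := by
    intro i m
    rw [← he, e.apply_symm_apply]
    rfl
  refine ⟨_, b, fun i => e.symm (b.coord i), fun m => ?_, fun m' => ?_, fun i j => ?_⟩
  · simp only [hcoord]
    exact (b.sum_repr m).symm
  · apply e.injective
    refine b.ext fun j => ?_
    rw [he, map_sum, LinearMap.sum_apply]
    simp only [map_smul, LinearMap.smul_apply, he, hcoord, Basis.repr_self]
    rw [Finset.sum_eq_single j]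
    · rw [Finsupp.single_eq_same, smul_eq_mul, mul_one]
    · intro i _ hij
      rw [Finsupp.single_eq_of_ne hij, smul_zero]
    · intro h
      exact absurd (Finset.mem_univ _) h
  · rw [hcoord, Basis.repr_self, Finsupp.single_apply]

/-- Dual bases of the spaces of equivariant maps. -/
theorem Pr.dual (h : Pr R χ ω U U' B p p' u₀ v₀) :
    ∃ (n : ℕ) (t t' : Fin n → End K X), (∀ i, t i ∈ MM R p) ∧ (∀ i, t' i ∈ MM R p') ∧
      (∀ m ∈ MM R p, m = ∑ i, ω (m u₀) (t' i v₀) • t i) ∧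
      (∀ m ∈ MM R p', m = ∑ i, ω (t i u₀) (m v₀) • t' i) ∧
      ∀ i j, ω (t i u₀) (t' j v₀) = if i = j then 1 else 0 := by
  let β : MM R p →ₗ[K] MM R p' →ₗ[K] K := LinearMap.mk₂ K (fun t t' => ω (t.1 u₀) (t'.1 v₀))
    (fun a b c => by simp) (fun a b c => by simp) (fun a b c => by simp) (fun a b c => by simp)
  have hβ : ∀ t t', β t t' = ω (t.1 u₀) (t'.1 v₀) := fun _ _ => rfl
  obtain ⟨n, t, t', h1, h2, h3⟩ := dual_bases β
    (fun m hm => Subtype.ext (h.gram_nd m.2 fun t' ht' => hm ⟨t', ht'⟩))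
    (fun m hm => Subtype.ext (h.swap.gram_nd m.2 fun t ht => by
      rw [h.skew]
      have h3 := hm ⟨t, ht⟩
      rw [hβ] at h3
      rw [h3, neg_zero]))
  refine ⟨n, fun i => (t i).1, fun i => (t' i).1, fun i => (t i).2, fun i => (t' i).2,
    fun m hm => ?_, fun m hm => ?_, fun i j => h3 i j⟩
  · have h4 := congrArg Subtype.val (h1 ⟨m, hm⟩)
    rw [Submodule.coe_sum] at h4
    exact h4
  · have h4 := congrArg Subtype.val (h2 ⟨m, hm⟩)
    rw [Submodule.coe_sum] at h4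
    exact h4

end Pool.Agent.K1H13.N
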