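import Mathlib
import Pool.Agent.K1H13.N.Gram

/-!
# Operators of rank one on a strongly irreducible subspace
-/

set_option linter.unusedSectionVars false

namespace Pool.Agent.K1H13.N

open Module Pool.Agent.H204R3.SP Pool.Agent.H204R3.GP Pool.Agent.W522.U Pool.Agent.TH118.CR

variable {K : Type} [Field K] [CharZero K] [IsAlgClosed K] {X : Type} [AddCommGroup X] [Module K X]
  [FiniteDimensional K X] {Γ : Type} [Group Γ] {R : Representation K Γ X} {χ : Γ →* K}

/-- The operator `x ↦ ∑ ω (t' i v) x • t i u`. -/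
def hop (ω : X →ₗ[K] X →ₗ[K] K) {n : ℕ} (t t' : Fin n → End K X) (u v : X) : End K X :=
  ∑ i, (ω (t' i v)).smulRight (t i u)

variable {ω B : X →ₗ[K] X →ₗ[K] K} {U U' : Submodule K X} {p p' : End K X} {u₀ v₀ : X}

theorem hop_apply {n : ℕ} (t t' : Fin n → End K X) (u v x : X) :
    hop ω t t' u v x = ∑ i, ω (t' i v) x • t i u := by
  unfold hop
  rw [LinearMap.sum_apply]
  rfl

theorem hop_adj (hsk : ∀ x y, ω x y = -ω y x) {n : ℕ} (t t' : Fin n → End K X) (u v x y : X) :
    ω (hop ω t t' u v x) y + ω x (hop ω t' t v u y) = 0 := by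
  rw [hop_apply, hop_apply, map_sum, LinearMap.sum_apply, map_sum, ← Finset.sum_add_distrib]
  refine Finset.sum_eq_zero fun i _ => ?_
  rw [map_smul, LinearMap.smul_apply, map_smul, smul_eq_mul, smul_eq_mul, hsk x (t' i v)]
  ring

/-- Adjoint operators. -/
theorem Pr.adj (h : Pr R χ ω U U' B p p' u₀ v₀) {b : End K X} (hb : b ∈ Cm R) :
    ∃ b' ∈ Cm R, ∀ x y, ω (b' x) y = ω x (b y) := by
  have hinj : Function.Injective ω := by
    rw [injective_iff_map_eq_zero]
    intro x hx
    exact h.nd x fun y => by rw [hx, LinearMap.zero_apply]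
  let e := LinearEquiv.ofInjectiveOfFinrankEq ω hinj (Subspace.dual_finrank_eq).symm
  have he : ∀ x, e x = ω x := fun _ => rfl
  let b' : End K X := e.symm.toLinearMap ∘ₗ ((LinearMap.lcomp K K b) ∘ₗ ω)
  have hb' : ∀ x y, ω (b' x) y = ω x (b y) := by
    intro x y
    have h1 : e (e.symm (LinearMap.lcomp K K b (ω x))) = LinearMap.lcomp K K b (ω x) :=
      e.apply_symm_apply _
    exact LinearMap.congr_fun h1 y
  obtain ⟨Δ, hΔ, h1⟩ := hb
  refine ⟨b', ⟨Δ, hΔ, fun g hg x => ?_⟩, hb'⟩
  rw [← sub_eq_zero]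
  refine h.nd _ fun y => ?_
  have h2 := h.inv g (b' x) (R g⁻¹ y)
  have h3 := h.inv g x (b (R g⁻¹ y))
  rw [Rinv'] at h2
  rw [← h1 g hg, Rinv'] at h3
  rw [map_sub, LinearMap.sub_apply, hb', h2, hb', h3, sub_self]

section

variable {n : ℕ} {t t' : Fin n → End K X} {s : K}

/-- The operators commute with the equivariant ones. -/
theorem hop_comm (h : Pr R χ ω U U' B p p' u₀ v₀) (ht : ∀ i, t i ∈ MM R p)
    (ht' : ∀ i, t' i ∈ MM R p') (hm : ∀ m ∈ MM R p, m = ∑ i, ω (m u₀) (t' i v₀) • t i)
    (hm' : ∀ m ∈ MM R p', m = ∑ i, ω (t i u₀) (m v₀) • t' i) {b : End K X} (hb : b ∈ Cm R)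
    (u v x : X) : b (hop ω t t' u v x) = hop ω t t' u v (b x) := by
  obtain ⟨b', hb', hadj⟩ := h.adj hb
  rw [hop_apply, hop_apply, map_sum]
  have h1 : ∀ i, b (t i u) = ∑ k, ω (b (t i u₀)) (t' k v₀) • t k u := by
    intro i
    have h2 := LinearMap.congr_fun (hm _ (MM_mul hb (ht i))) u
    rw [LinearMap.sum_apply] at h2
    exact h2
  have h3 : ∀ k, ω (t' k v) (b x) = ∑ i, ω (b (t i u₀)) (t' k v₀) * ω (t' i v) x := by
    intro k
    have h2 := LinearMap.congr_fun (hm' _ (MM_mul hb' (ht' k))) v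
    rw [LinearMap.sum_apply] at h2
    rw [← hadj]
    change ω ((b' * t' k) v) x = _
    rw [h2, map_sum, LinearMap.sum_apply]
    refine Finset.sum_congr rfl fun i _ => ?_
    rw [LinearMap.smul_apply, map_smul, LinearMap.smul_apply, smul_eq_mul]
    congr 1
    change ω (t i u₀) (b' (t' k v₀)) = _
    rw [h.skew, hadj, h.skew, neg_neg]
  have h4 : ∀ i, b (ω (t' i v) x • t i u) =
      ∑ k, (ω (t' i v) x * ω (b (t i u₀)) (t' k v₀)) • t k u := by
    intro i
    rw [map_smul, h1, Finset.smul_sum]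
    refine Finset.sum_congr rfl fun k _ => ?_
    rw [smul_smul]
  rw [Finset.sum_congr rfl fun i _ => h4 i, Finset.sum_comm]
  refine Finset.sum_congr rfl fun k _ => ?_
  rw [h3, Finset.sum_smul]
  refine Finset.sum_congr rfl fun i _ => ?_
  rw [mul_comm]

/-- The product of two operators. -/
theorem hop_a_hop (h : Pr R χ ω U U' B p p' u₀ v₀) (ht : ∀ i, t i ∈ MM R p)
    (ht' : ∀ i, t' i ∈ MM R p') (hd : ∀ i j, ω (t i u₀) (t' j v₀) = if i = j then 1 else 0)
    {a : End K X} (ha : ∀ b ∈ Cm R, ∀ x, a (b x) = b (a x)) {u v : X} (hu : u ∈ U) (hv : v ∈ U')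
    (x : X) : hop ω t t' u v (a (hop ω t t' u v x)) = (-B (a u) v) • hop ω t t' u v x := by
  have hau : a u ∈ U := by
    have h1 := ha p h.pC u
    rw [h.pu u hu] at h1
    rw [h1]
    exact h.pU _
  rw [hop_apply _ _ _ _ (a _)]
  have h1 : ∀ j, ω (t' j v) (a (hop ω t t' u v x)) = -B (a u) v * ω (t' j v) x := by
    intro j
    rw [hop_apply, map_sum, map_sum]
    rw [Finset.sum_eq_single j]
    · rw [map_smul, ha _ (ht j).1, map_smul, smul_eq_mul, h.skew _ (t j (a u)),
        h.gram (ht j).1 (ht' j).1 hau hv, hd, if_pos rfl]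
      ring
    · intro i _ hij
      rw [map_smul, ha _ (ht i).1, map_smul, smul_eq_mul, h.skew _ (t i (a u)),
        h.gram (ht i).1 (ht' j).1 hau hv, hd, if_neg hij]
      ring
    · intro hj
      exact absurd (Finset.mem_univ _) hj
  conv_rhs => rw [hop_apply, Finset.smul_sum]
  refine Finset.sum_congr rfl fun j _ => ?_
  rw [h1, smul_smul]

/-- The product of the two adjoint operators. -/
theorem hop_a_hop' (h : Pr R χ ω U U' B p p' u₀ v₀) (ht : ∀ i, t i ∈ MM R p)
    (ht' : ∀ i, t' i ∈ MM R p') (hd : ∀ i j, ω (t i u₀) (t' j v₀) = if i = j then 1 else 0)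
    {a : End K X} (ha : ∀ b ∈ Cm R, ∀ x, a (b x) = b (a x))
    (hsk : ∀ x y, ω (a x) y + ω x (a y) = 0) {u v : X} (hu : u ∈ U) (hv : v ∈ U')
    (x : X) : hop ω t' t v u (a (hop ω t' t v u x)) = (-B (a u) v) • hop ω t' t v u x := by
  have hau : a u ∈ U := by
    have h1 := ha p h.pC u
    rw [h.pu u hu] at h1
    rw [h1]
    exact h.pU _
  rw [hop_apply _ _ _ _ (a _)]
  have h1 : ∀ j, ω (t j u) (a (hop ω t' t v u x)) = -B (a u) v * ω (t j u) x := by
    intro j
    have h2 := hsk (t j u) (hop ω t' t v u x)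
    rw [ha _ (ht j).1] at h2
    have h3 : ω (t j (a u)) (hop ω t' t v u x) = B (a u) v * ω (t j u) x := by
      rw [hop_apply, map_sum]
      rw [Finset.sum_eq_single j]
      · rw [map_smul, smul_eq_mul, h.gram (ht j).1 (ht' j).1 hau hv, hd, if_pos rfl]
        ring
      · intro i _ hij
        rw [map_smul, smul_eq_mul, h.gram (ht j).1 (ht' i).1 hau hv, hd, if_neg (Ne.symm hij)]
        ring
      · intro hj
        exact absurd (Finset.mem_univ _) hj
    linear_combination h2 - h3
  conv_rhs => rw [hop_apply, Finset.smul_sum]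
  refine Finset.sum_congr rfl fun j _ => ?_
  rw [h1, smul_smul]

/-- The operator on the subspace `U`. -/
theorem hop_on (h : Pr R χ ω U U' B p p' u₀ v₀)
    (ht' : ∀ i, t' i ∈ MM R p') (hm : ∀ m ∈ MM R p, m = ∑ i, ω (m u₀) (t' i v₀) • t i)
    {u v : X} (hu : u ∈ U) (hv : v ∈ U') {x : X} (hx : x ∈ U) :
    hop ω t t' u v x = (-B x v) • u := by
  have hp : p ∈ MM R p := ⟨h.pC, fun x => h.pu _ (h.pU x)⟩
  have h1 := LinearMap.congr_fun (hm p hp) u
  rw [h.pu u hu, LinearMap.sum_apply] at h1
  rw [hop_apply]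
  conv_rhs => rw [h1]
  rw [Finset.smul_sum]
  refine Finset.sum_congr rfl fun i _ => ?_
  have h2 := h.gram h.pC (ht' i).1 hx hv
  rw [h.pu x hx] at h2
  rw [LinearMap.smul_apply, smul_smul, h.skew, h2]
  congr 1
  ring

end

/-- A pairing of two strongly irreducible subspaces which are not dual vanishes. -/
theorem Pr.zero (h : Pr R χ ω U U' B p p' u₀ v₀) {A A' : Submodule K X} (hA : ¬Du R χ A A')
    {t t' : End K X} (ht : t ∈ Cm R) (ht' : t' ∈ Cm R) {u v : X} (hu : u ∈ A) (hv : v ∈ A') :
    ω (t u) (t' v) = 0 := by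
  by_contra hne
  apply hA
  obtain ⟨Δ, hΔ, h1⟩ := Cm_inv h ht ht' A A'
  exact ⟨Δ, hΔ, ω.compl₁₂ t t', ⟨u, hu, v, hv, hne⟩, h1⟩

/-- **Operators of rank one.** -/
theorem Pr.exists_e (h : Pr R χ ω U U' B p p' u₀ v₀)
    (hcase : ¬Du R χ U U ∨ (U = U' ∧ p = p' ∧ ∀ u ∈ U, B u u = 0))
    {a : End K X} (ha : ∀ b ∈ Cm R, ∀ x, a (b x) = b (a x))
    (hsk : ∀ x y, ω (a x) y + ω x (a y) = 0) (hns : ¬∃ c : K, ∀ u ∈ U, a u = c • u) :
    ∃ e : End K X, (∀ b ∈ Cm R, ∀ x, e (b x) = b (e x)) ∧
      (∀ x y, ω (e x) y + ω x (e y) = 0) ∧ e * e = 0 ∧ finrank K (U.map e) = 1 ∧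
      ∃ c : K, c ≠ 0 ∧ e * a * e = c • e := by
  classical
  obtain ⟨n, t, t', ht, ht', hm, hm', hd⟩ := h.dual
  have hone : ∀ b ∈ Cm R, ∀ x, (1 : End K X) (b x) = b ((1 : End K X) x) := fun _ _ _ => rfl
  have hau : ∀ u ∈ U, a u ∈ U := by
    intro u hu
    have h1 := ha p h.pC u
    rw [h.pu u hu] at h1
    rw [h1]
    exact h.pU _
  have hav : ∀ v ∈ U', a v ∈ U' := by
    intro u hu
    have h1 := ha p' h.pC' u
    rw [h.pu' u hu] at h1
    rw [h1]
    exact h.pU' _
  obtain ⟨ΔB, hΔB, hBi⟩ := h.binv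
  have hB0 : ∃ u ∈ U, ∃ v ∈ U', B u v ≠ 0 := ⟨u₀, h.hu₀, v₀, h.hv₀, by
    rw [h.one]; exact one_ne_zero⟩
  have hl := du_left h.si h.si'.2.1 hΔB hB0 hBi
  have hr := du_right h.si.2.1 h.si' hΔB hB0 hBi
  rcases hcase with hnd | ⟨rfl, rfl, halt⟩
  · -- not self-dual
    have hnd' : ¬Du R χ U' U' := by
      intro h1
      have hd2 : Du R χ U' U := Du.symm ⟨ΔB, hΔB, B, hB0, hBi⟩
      exact hnd (Tw.du h.si' h.si (hd2.tw h.si' h.si h.si' h1) hd2)
    obtain ⟨u, hu, v, hv, huv, hauv⟩ : ∃ u ∈ U, ∃ v ∈ U', B u v = 0 ∧ B (a u) v ≠ 0 := by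
      by_contra hcon
      push Not at hcon
      -- every vector is an eigenvector
      have h1 : ∀ u ∈ U, ∃ c : K, a u = c • u := by
        intro u hu
        by_cases hu0 : u = 0
        · exact ⟨0, by rw [hu0, map_zero, smul_zero]⟩
        · obtain ⟨v1, hv1, huv1⟩ : ∃ v ∈ U', B u v ≠ 0 := by
            by_contra hcon2
            push Not at hcon2
            exact hu0 (hl u hu hcon2)
          refine ⟨B (a u) v1 / B u v1, ?_⟩
          rw [← sub_eq_zero]
          refine hl _ (U.sub_mem (hau u hu) (U.smul_mem _ hu)) fun v hv => ?_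
          have h2 := hcon u hu (v - (B u v / B u v1) • v1)
            (U'.sub_mem hv (U'.smul_mem _ hv1)) (by
              rw [map_sub, map_smul, smul_eq_mul, div_mul_cancel₀ _ huv1, sub_self])
          rw [map_sub, map_smul, smul_eq_mul] at h2
          rw [map_sub, LinearMap.sub_apply, map_smul, LinearMap.smul_apply, smul_eq_mul]
          linear_combination h2
      apply hns
      obtain ⟨u, hu, hu0⟩ := Submodule.exists_mem_ne_zero_of_ne_bot h.si.1
      obtain ⟨c, hc⟩ := h1 u hu
      refine ⟨c, fun w hw => ?_⟩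
      by_cases hdep : ∃ r : K, w = r • u
      · obtain ⟨r, rfl⟩ := hdep
        rw [map_smul, hc, smul_comm]
      · push Not at hdep
        obtain ⟨d, hd⟩ := h1 w hw
        obtain ⟨f, hf⟩ := h1 (u + w) (U.add_mem hu hw)
        rw [map_add, hc, hd, smul_add] at hf
        have h2 : (f - d) • w = (c - f) • u := by
          rw [sub_smul, sub_smul]
          have h3 : f • w - d • w = c • u - f • u := by
            rw [sub_eq_sub_iff_add_eq_add, add_comm (f • w)]
            exact hf.symm
          exact h3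
        have h3 : f = d := by
          by_contra hne
          apply hdep ((f - d)⁻¹ * (c - f))
          rw [mul_smul, ← h2, smul_smul, inv_mul_cancel₀ (sub_ne_zero.2 hne), one_smul]
        rw [h3, sub_self, zero_smul] at h2
        have h4 : c = d := sub_eq_zero.1 ((smul_eq_zero.1 h2.symm).resolve_right hu0)
        rw [hd, h4]
    let H := hop ω t t' u v
    let H' := hop ω t' t v u
    have hHH' : ∀ a : End K X, (∀ b ∈ Cm R, ∀ x, a (b x) = b (a x)) → ∀ x, H (a (H' x)) = 0 := by
      intro a ha x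
      have hav : a v ∈ U' := by
        have h1 := ha p' h.pC' v
        rw [h.pu' v hv] at h1
        rw [h1]
        exact h.pU' _
      change hop ω t t' u v (a (hop ω t' t v u x)) = 0
      rw [hop_apply]
      refine Finset.sum_eq_zero fun j _ => ?_
      rw [hop_apply, map_sum, map_sum]
      rw [Finset.sum_eq_zero, zero_smul]
      intro i _
      rw [map_smul, ha _ (ht' i).1, map_smul, h.zero hnd' (ht' j).1 (ht' i).1 hv hav, smul_zero]
    have hH'H : ∀ a : End K X, (∀ b ∈ Cm R, ∀ x, a (b x) = b (a x)) → ∀ x, H' (a (H x)) = 0 := by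
      intro a ha x
      have hau : a u ∈ U := by
        have h1 := ha p h.pC u
        rw [h.pu u hu] at h1
        rw [h1]
        exact h.pU _
      change hop ω t' t v u (a (hop ω t t' u v x)) = 0
      rw [hop_apply]
      refine Finset.sum_eq_zero fun j _ => ?_
      rw [hop_apply, map_sum, map_sum]
      rw [Finset.sum_eq_zero, zero_smul]
      intro i _
      rw [map_smul, ha _ (ht i).1, map_smul, h.zero hnd (ht j).1 (ht i).1 hu hau, smul_zero]
    have hHa := fun x => hop_a_hop h ht ht' hd ha hu hv x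
    have hHa' := fun x => hop_a_hop' h ht ht' hd ha hsk hu hv x
    have hcH : ∀ b ∈ Cm R, ∀ x, H (b x) = b (H x) := fun b hb x =>
      (hop_comm h ht ht' hm hm' hb u v x).symm
    have hadj : ∀ x y, ω (H x) y + ω x (H' y) = 0 := fun x y => hop_adj h.skew t t' u v x y
    have hadj' : ∀ x y, ω (H' x) y + ω x (H y) = 0 := fun x y => hop_adj h.skew t' t v u x y
    have hcH' : ∀ b ∈ Cm R, ∀ x, H' (b x) = b (H' x) := by
      intro b hb x
      obtain ⟨b', hb', hbb⟩ := h.adj hb
      rw [← sub_eq_zero]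
      refine h.nd _ fun y => ?_
      rw [h.skew, neg_eq_zero]
      have e1 := hadj y (b x)
      have e2 := hadj (b' y) x
      have e3 := hbb (H y) x
      have e4 := hbb y (H' x)
      have e5 := hcH b' hb' y
      rw [e5] at e2
      rw [map_sub]
      linear_combination e1 - e2 + e3 + e4
    have hU1 : ∀ x ∈ U, H x = (-B x v) • u := fun x hx => hop_on h ht' hm hu hv hx
    have hU2 : ∀ x ∈ U, H' x = 0 := by
      intro x hx
      change hop ω t' t v u x = 0
      rw [hop_apply]
      refine Finset.sum_eq_zero fun i _ => ?_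
      have h1 := h.zero hnd (ht i).1 h.pC hu hx
      rw [h.pu x hx] at h1
      rw [h1, zero_smul]
    refine ⟨H + H', fun b hb x => ?_, fun x y => ?_, ?_, ?_, -B (a u) v, ?_, ?_⟩
    · rw [LinearMap.add_apply, LinearMap.add_apply, map_add, hcH b hb, hcH' b hb]
    · rw [LinearMap.add_apply, LinearMap.add_apply, map_add, map_add, LinearMap.add_apply]
      linear_combination hadj x y + hadj' x y
    · apply LinearMap.ext
      intro x
      have h1 := hop_a_hop h ht ht' hd (a := 1) hone hu hv x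
      rw [Module.End.one_apply, Module.End.one_apply, huv, neg_zero, zero_smul] at h1
      have h3 := hHH' 1 hone x
      have h4 := hH'H 1 hone x
      rw [Module.End.one_apply] at h3 h4
      have h5 : H' (H' x) = 0 := by
        refine h.nd _ fun y => ?_
        have e1 := hadj' (H' x) y
        have e2 := hadj' x (H y)
        have h6 := hop_a_hop h ht ht' hd (a := 1) hone hu hv y
        rw [Module.End.one_apply, Module.End.one_apply, huv, neg_zero, zero_smul] at h6
        change H (H y) = 0 at h6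
        rw [h6, map_zero] at e2
        linear_combination e1 - e2
      change (H + H') ((H + H') x) = 0
      rw [LinearMap.add_apply, LinearMap.add_apply, map_add, map_add, h3, h4, h5]
      change H (H x) = 0 at h1
      rw [h1]
      simp
    · have h1 : U.map (H + H') = K ∙ u := by
        apply le_antisymm
        · rintro _ ⟨x, hx, rfl⟩
          rw [LinearMap.add_apply, hU1 x hx, hU2 x hx, add_zero]
          exact Submodule.smul_mem _ _ (Submodule.mem_span_singleton_self u)
        · rw [Submodule.span_singleton_le_iff_mem]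
          refine ⟨-(B (a u) v)⁻¹ • a u, U.smul_mem _ (hau u hu), ?_⟩
          rw [LinearMap.add_apply, hU1 _ (U.smul_mem _ (hau u hu)),
            hU2 _ (U.smul_mem _ (hau u hu)), add_zero, map_smul, LinearMap.smul_apply,
            smul_eq_mul]
          have h2 : -(-(B (a u) v)⁻¹ * (B (a u)) v) = 1 := by
            rw [neg_mul, neg_neg, inv_mul_cancel₀ hauv]
          rw [h2, one_smul]
      rw [h1]
      refine finrank_span_singleton fun hu0 => hauv ?_
      rw [hu0, map_zero, map_zero, LinearMap.zero_apply]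
    · exact neg_ne_zero.2 hauv
    · apply LinearMap.ext
      intro x
      change (H + H') (a ((H + H') x)) = -B (a u) v • (H + H') x
      rw [LinearMap.add_apply, LinearMap.add_apply, map_add, map_add, map_add, hHH' a ha, hH'H a ha]
      have e1 : H (a (H x)) = (-B (a u) v) • H x := hHa x
      have e2 : H' (a (H' x)) = (-B (a u) v) • H' x := hHa' x
      rw [e1, e2, add_zero, zero_add, smul_add]
  · -- self-dual
    have hB2 : ∀ u ∈ U, ∀ v ∈ U, B u v = -B v u := by
      intro u hu v hv
      have h1 := halt (u + v) (U.add_mem hu hv)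
      simp only [map_add, LinearMap.add_apply, halt u hu, halt v hv] at h1
      linear_combination h1
    have hn : ∃ i : Fin n, True := by
      by_contra hcon
      push Not at hcon
      have hp : p ∈ MM R p := ⟨h.pC, fun x => h.pu _ (h.pU x)⟩
      have h1 := LinearMap.congr_fun (hm p hp) u₀
      rw [h.pu u₀ h.hu₀, LinearMap.sum_apply] at h1
      have h2 : u₀ = 0 := by
        rw [h1]
        exact Finset.sum_eq_zero fun i _ => (hcon i).elim
      have h3 := h.one
      rw [h2, map_zero, LinearMap.zero_apply] at h3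
      exact zero_ne_one h3
    obtain ⟨i₀, -⟩ := hn
    have hBa : ∀ u ∈ U, ∀ v ∈ U, B (a u) v + B u (a v) = 0 := by
      intro u hu v hv
      have h1 := hsk (t i₀ u) (t' i₀ v)
      rw [ha _ (ht i₀).1, ha _ (ht' i₀).1, h.gram (ht i₀).1 (ht' i₀).1 (hau u hu) hv,
        h.gram (ht i₀).1 (ht' i₀).1 hu (hau v hv), hd, if_pos rfl, one_mul, one_mul] at h1
      exact h1
    obtain ⟨u, hu, huu⟩ : ∃ u ∈ U, B (a u) u ≠ 0 := by
      by_contra hcon
      push Not at hcon
      apply hns
      refine ⟨0, fun u hu => ?_⟩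
      rw [zero_smul]
      refine hl _ (hau u hu) fun v hv => ?_
      have h1 := hcon (u + v) (U.add_mem hu hv)
      simp only [map_add, LinearMap.add_apply, hcon u hu, hcon v hv] at h1
      have h2 := hBa v hv u hu
      have h3 := hB2 v hv (a u) (hau u hu)
      have h4 : (2 : K) * B (a u) v = 0 := by linear_combination h1 - h2 + h3
      exact (mul_eq_zero.1 h4).resolve_left two_ne_zero
    have hsym : ∀ m ∈ Cm R, ∀ m' ∈ Cm R, ω (m u₀) (m' v₀) = ω (m' u₀) (m v₀) := by
      intro m hm m' hm'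
      have h1 := h.gram hm hm' h.hu₀ h.hv₀
      have h2 := h.gram hm' hm h.hv₀ h.hu₀
      rw [h.skew, hB2 _ h.hv₀ _ h.hu₀, h.one] at h2
      linear_combination -h2
    let H := hop ω t t' u u
    have hHH : hop ω t' t u u = H := by
      apply LinearMap.ext
      intro x
      change _ = hop ω t t' u u x
      rw [hop_apply, hop_apply]
      have h1 : ∀ i, t' i u = ∑ k, ω (t' i u₀) (t' k v₀) • t k u := by
        intro i
        have h2 := LinearMap.congr_fun (hm _ (ht' i)) u
        rw [LinearMap.sum_apply] at h2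
        exact h2
      have h2 : ∀ i, ω (t i u) x • t' i u = ∑ k, (ω (t i u) x * ω (t' i u₀) (t' k v₀)) • t k u := by
        intro i
        conv_lhs => rw [h1 i, Finset.smul_sum]
        refine Finset.sum_congr rfl fun k _ => ?_
        rw [smul_smul]
      rw [Finset.sum_congr rfl fun i _ => h2 i, Finset.sum_comm]
      refine Finset.sum_congr rfl fun k _ => ?_
      rw [← Finset.sum_smul]
      congr 1
      conv_rhs => rw [h1 k, map_sum, LinearMap.sum_apply]
      refine Finset.sum_congr rfl fun i _ => ?_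
      rw [map_smul, LinearMap.smul_apply, smul_eq_mul, hsym _ (ht' k).1 _ (ht' i).1, mul_comm]
    have hone' : ∀ x, H (H x) = 0 := by
      intro x
      have h1 := hop_a_hop h ht ht' hd (a := 1) hone hu hu x
      rw [Module.End.one_apply, Module.End.one_apply, halt u hu, neg_zero, zero_smul] at h1
      exact h1
    have hU1 : ∀ x ∈ U, H x = (-B x u) • u := fun x hx => hop_on h ht' hm hu hu hx
    refine ⟨H, fun b hb x => ?_, fun x y => ?_, ?_, ?_, -B (a u) u, neg_ne_zero.2 huu, ?_⟩
    · exact (hop_comm h ht ht' hm hm' hb u u x).symm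
    · have h1 := hop_adj h.skew t t' u u x y
      rw [hHH] at h1
      exact h1
    · apply LinearMap.ext
      intro x
      exact hone' x
    · have h1 : U.map H = K ∙ u := by
        apply le_antisymm
        · rintro _ ⟨x, hx, rfl⟩
          rw [hU1 x hx]
          exact Submodule.smul_mem _ _ (Submodule.mem_span_singleton_self u)
        · rw [Submodule.span_singleton_le_iff_mem]
          refine ⟨-(B (a u) u)⁻¹ • a u, U.smul_mem _ (hau u hu), ?_⟩
          rw [hU1 _ (U.smul_mem _ (hau u hu)), map_smul, LinearMap.smul_apply, smul_eq_mul]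
          have h2 : -(-(B (a u) u)⁻¹ * (B (a u)) u) = 1 := by
            rw [neg_mul, neg_neg, inv_mul_cancel₀ huu]
          rw [h2, one_smul]
      rw [h1]
      refine finrank_span_singleton fun hu0 => huu ?_
      rw [hu0, map_zero]
    · apply LinearMap.ext
      intro x
      exact hop_a_hop h ht ht' hd ha hu hu x

end Pool.Agent.K1H13.N
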