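import Mathlib
import Pool.Agent.K1H13.D4.Nondeg
import Pool.Agent.K1H13.N.Rank

/-!
# Operators killing the Tate forms in two and four variables normalise the Lie algebra
-/

set_option linter.unusedSectionVars false

namespace Pool.Agent.K1H13.N

open Module Finset Function Pool.Agent.H204R3.SP Pool.Agent.H204R3.GP Pool.Agent.W522.U
  Pool.Agent.TH118.CR Pool.Agent.K1H13.D4

variable {K : Type} [Field K] [CharZero K] [IsAlgClosed K] {X : Type} [AddCommGroup X] [Module K X]
  [FiniteDimensional K X] {Γ : Type} [Group Γ] {R : Representation K Γ X} {χ : Γ →* K}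

/-- The character with values in the units. -/
abbrev cu (χ : Γ →* K) : Γ →* Kˣ := χ.toHomUnits

theorem cu_apply (χ : Γ →* K) (g : Γ) : ((cu χ g : Kˣ) : K) = χ g := rfl

theorem semi_of_tate {m : ℕ} {φ : MultilinearMap K (fun _ : Fin m × Fin 2 => X) K}
    (h : IsTate R χ m φ) : Semi R (cu χ) m φ := by
  obtain ⟨Δ, hΔ, h⟩ := h
  refine ⟨Δ, hΔ, fun g hg v => ?_⟩
  rw [h g hg v, zpow_natCast, Units.val_pow_eq_pow_val, cu_apply]

theorem Lie_le : Lie R (cu χ) ≤ lieT R χ := by
  intro Y hY m φ hφ v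
  have h1 := Lie_mul hY (semi_of_tate hφ) v
  rwa [zero_mul] at h1

theorem sep_of_form {ω : X →ₗ[K] X →ₗ[K] K} (hnd : ∀ x, (∀ y, ω x y = 0) → x = 0)
    (hω : ∀ g x y, ω (R g x) (R g y) = χ g * ω x y) : Sep R (cu χ) := by
  intro x h
  refine hnd x fun y => h ω 1 ⟨⊤, inferInstance, fun g _ v => ?_⟩ y
  change ω (R g (v 0)) (R g (v 1)) = _ * ω (v 0) (v 1)
  rw [hω, zpow_one, cu_apply]

theorem ss_of_proj (hss : HasProj R) : SS R := by
  intro U hU
  obtain ⟨P, h1, h2, h3⟩ := hss ⊤ inferInstance U (fun g _ => hU g)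
  refine ⟨LinearMap.ker P, fun g x hx => ?_, ?_⟩
  · rw [LinearMap.mem_ker] at hx ⊢
    rw [h3 g trivial, hx, map_zero]
  · constructor
    · rw [Submodule.disjoint_def]
      intro x hx hx'
      rw [← h2 x hx]
      exact hx'
    · rw [codisjoint_iff, eq_top_iff]
      intro x _
      refine Submodule.mem_sup.2 ⟨P x, h1 x, x - P x, ?_, by abel⟩
      rw [LinearMap.mem_ker, map_sub, h2 _ (h1 x), sub_self]

/-- A form in four variables. -/
def form4 (φ : X →ₗ[K] X →ₗ[K] X →ₗ[K] X →ₗ[K] K) :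
    MultilinearMap K (fun _ : Fin 2 × Fin 2 => X) K where
  toFun v := φ (v (0, 0)) (v (0, 1)) (v (1, 0)) (v (1, 1))
  map_update_add' := by
    intro _ v l x y
    obtain ⟨i, j⟩ := l
    fin_cases i <;> fin_cases j <;>
    simp [Function.update]
  map_update_smul' := by
    intro _ v l c x
    obtain ⟨i, j⟩ := l
    fin_cases i <;> fin_cases j <;>
    simp [Function.update]

theorem form4_apply (φ : X →ₗ[K] X →ₗ[K] X →ₗ[K] X →ₗ[K] K) (v : Fin 2 × Fin 2 → X) :
    form4 φ v = φ (v (0, 0)) (v (0, 1)) (v (1, 0)) (v (1, 1)) := rfl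

theorem form4_kills {φ : X →ₗ[K] X →ₗ[K] X →ₗ[K] X →ₗ[K] K} {Y : End K X}
    (h : Kills Y (form4 φ)) (a b c d : X) :
    φ (Y a) b c d + φ a (Y b) c d + φ a b (Y c) d + φ a b c (Y d) = 0 := by
  have h1 := h (fun l => if l = (0, 0) then a else if l = (0, 1) then b else
    if l = (1, 0) then c else d)
  rw [Fintype.sum_prod_type, Fin.sum_univ_two, Fin.sum_univ_two, Fin.sum_univ_two] at h1
  simp only [form4_apply, Function.update] at h1
  simp at h1
  linear_combination h1

/-- **The normaliser principle.** -/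
theorem normalises {ω : X →ₗ[K] X →ₗ[K] K} (hnd : ∀ x, (∀ y, ω x y = 0) → x = 0)
    (hω : ∀ g x y, ω (R g x) (R g y) = χ g * ω x y) (hss : HasProj R) {Y : End K X}
    (hY2 : ∀ x y, ω (Y x) y + ω x (Y y) = 0)
    (hY4 : ∀ φ : MultilinearMap K (fun _ : Fin 2 × Fin 2 => X) K, IsTate R χ 2 φ → Kills Y φ) :
    ∀ Z ∈ Lie R (cu χ), Y * Z - Z * Y ∈ Lie R (cu χ) := by
  have hsep := sep_of_form hnd hω
  have hnn : ∀ Y ∈ Lie R (cu χ), (∀ Z ∈ Lie R (cu χ), LinearMap.trace K X (Y * Z) = 0) →
      Y = 0 := fun Y hY h => nondeg (A := Unit) (V := fun _ => X) (ρV := fun _ => R) hsep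
        (fun _ => ss_of_proj hss) (j := fun _ => LinearMap.id) (q := fun _ => LinearMap.id)
        (fun _ _ => rfl) (fun x => by simp) (fun _ _ _ => rfl) (fun _ _ _ => rfl) hY h
  obtain ⟨P, hPL, hPtr, hPconj⟩ := exists_P (ρ := R) (χ := cu χ) hnn
  let E : X →ₗ[K] X →ₗ[K] End K X := LinearMap.mk₂ K
    (fun u v => (ω v).smulRight u)
    (fun u u' v => by
      apply LinearMap.ext
      intro x
      simp)
    (fun c u v => by
      apply LinearMap.ext
      intro x
      rw [LinearMap.smul_apply, LinearMap.smulRight_apply, LinearMap.smulRight_apply,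
        smul_comm])
    (fun u v v' => by
      apply LinearMap.ext
      intro x
      simp [add_smul])
    (fun c u v => by
      apply LinearMap.ext
      intro x
      simp [mul_smul])
  have hE : ∀ u v x, E u v x = ω v x • u := fun _ _ _ => rfl
  have hEconj : ∀ g u v, E (R g u) (R g v) = χ g • (R g * E u v * R g⁻¹) := by
    intro g u v
    apply LinearMap.ext
    intro x
    rw [hE, LinearMap.smul_apply]
    simp only [Module.End.mul_apply]
    rw [hE, map_smul, smul_smul]
    congr 1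
    have h1 := hω g v (R g⁻¹ x)
    rw [Rinv'] at h1
    exact h1
  let T : End K X →ₗ[K] (X →ₗ[K] X →ₗ[K] K) := LinearMap.mk₂ K
    (fun Y x => ω (Y x))
    (fun Y Y' x => by rw [LinearMap.add_apply, map_add])
    (fun c Y x => by rw [LinearMap.smul_apply, map_smul])
    (fun Y x x' => by rw [map_add, map_add])
    (fun c Y x => by rw [map_smul, map_smul])
  let φ : X →ₗ[K] X →ₗ[K] X →ₗ[K] X →ₗ[K] K := E.compr₂ (T ∘ₗ P)
  have hφ : ∀ u v x y, φ u v x y = ω (P (E u v) x) y := fun _ _ _ _ => rfl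
  have hφT : IsTate R χ 2 (form4 φ) := by
    refine ⟨⊤, inferInstance, fun g _ v => ?_⟩
    rw [form4_apply, form4_apply, hφ, hφ, hEconj, map_smul, hPconj, LinearMap.smul_apply]
    simp only [Module.End.mul_apply]
    rw [Rinv, map_smul, LinearMap.smul_apply, hω, smul_eq_mul]
    ring
  have hkill := form4_kills (hY4 _ hφT)
  have h1 : ∀ u v, P (Y * E u v - E u v * Y) = Y * P (E u v) - P (E u v) * Y := by
    intro u v
    apply LinearMap.ext
    intro x
    rw [← sub_eq_zero]
    refine hnd _ fun y => ?_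
    have h2 := hkill u v x y
    have h3 : Y * E u v - E u v * Y = E (Y u) v + E u (Y v) := by
      apply LinearMap.ext
      intro z
      rw [LinearMap.sub_apply, LinearMap.add_apply, Module.End.mul_apply, Module.End.mul_apply,
        hE, hE, hE, hE, map_smul, sub_eq_add_neg, ← neg_smul]
      congr 2
      linear_combination -hY2 v z
    rw [h3, map_add, LinearMap.add_apply]
    simp only [hφ] at h2
    have h4 := hY2 (P (E u v) x) y
    simp only [map_sub, map_add, LinearMap.sub_apply, LinearMap.add_apply, Module.End.mul_apply]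
    linear_combination h2 - h4
  have hinj : Function.Injective ω := by
    rw [injective_iff_map_eq_zero]
    intro x hx
    exact hnd x fun y => by rw [hx, LinearMap.zero_apply]
  let e := LinearEquiv.ofInjectiveOfFinrankEq ω hinj (Subspace.dual_finrank_eq).symm
  have he : ∀ x, e x = ω x := fun _ => rfl
  let b := Module.finBasis K X
  have hT : ∀ Z : End K X, Z = ∑ i, E (Z (b i)) (e.symm (b.coord i)) := by
    intro Z
    apply LinearMap.ext
    intro x
    rw [LinearMap.sum_apply]
    conv_lhs => rw [← b.sum_repr x, map_sum]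
    refine Finset.sum_congr rfl fun i _ => ?_
    rw [hE, ← he, e.apply_symm_apply, map_smul]
    rfl
  have h2 : ∀ Z : End K X, P (Y * Z - Z * Y) = Y * P Z - P Z * Y := by
    intro Z
    have h3 : Y * Z - Z * Y = ∑ i, (Y * E (Z (b i)) (e.symm (b.coord i)) -
        E (Z (b i)) (e.symm (b.coord i)) * Y) := by
      rw [Finset.sum_sub_distrib, ← Finset.mul_sum, ← Finset.sum_mul, ← hT Z]
    rw [h3, map_sum]
    rw [Finset.sum_congr rfl fun i _ => h1 (Z (b i)) (e.symm (b.coord i))]
    rw [Finset.sum_sub_distrib, ← Finset.mul_sum, ← Finset.sum_mul, ← map_sum, ← hT Z]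
  intro Z hZ
  have h3 : P Z = Z := by
    rw [← sub_eq_zero]
    refine hnn _ (Submodule.sub_mem _ (hPL Z) hZ) fun W hW => ?_
    rw [sub_mul, map_sub, hPtr Z W hW, sub_self]
  have h4 := h2 Z
  rw [h3] at h4
  rw [← h4]
  exact hPL _

end Pool.Agent.K1H13.N
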