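import Mathlib
import Pool.Agent.K1H13.N.Norm
import Pool.Agent.K1H13.N.Burn
import Pool.Agent.Y126.JB.Nondeg
import Pool.Agent.TH118.SG.Group

/-!
# The Lie algebra does not act by scalars on a strongly irreducible subspace
-/

set_option linter.unusedSectionVars false

namespace Pool.Agent.K1H13.N

open Module Finset Function Pool.Agent.H204R3.SP Pool.Agent.H204R3.GP Pool.Agent.W522.U
  Pool.Agent.TH118.CR Pool.Agent.K1H13.D4 Pool.Agent.TH118.SG Pool.Agent.TH125.Gal

variable {K : Type} [Field K] [CharZero K] [IsAlgClosed K] {X : Type} [AddCommGroup X] [Module K X]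
  [FiniteDimensional K X] {Γ : Type} [Group Γ] {R : Representation K Γ X} {χ : Γ →* K}

/-- Eigenvalues of the group elements which agree up to a root of unity agree up to a root of unity
of bounded order. -/
def BddRoots (R : Representation K Γ X) : Prop :=
  ∃ m : ℕ, 0 < m ∧ ∀ g : Γ, ∀ a b : K, (∃ x, x ≠ 0 ∧ R g x = a • x) →
    (∃ x, x ≠ 0 ∧ R g x = b • x) → (∃ k : ℕ, 0 < k ∧ a ^ k = b ^ k) → a ^ m = b ^ m

theorem exists_nonscalar' {ω : X →ₗ[K] X →ₗ[K] K} (hnd : ∀ x, (∀ y, ω x y = 0) → x = 0)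
    (hω : ∀ g x y, ω (R g x) (R g y) = χ g * ω x y) (hss : HasProj R) (hb : BddRoots R)
    {U : Submodule K X} (hU : SI R U) (h2 : 2 ≤ finrank K U) :
    ∃ Z ∈ Lie R (cu χ), ¬∃ c : K, ∀ u ∈ U, Z u = c • u := by
  by_contra hcon
  push Not at hcon
  have hsep := sep_of_form hnd hω
  obtain ⟨Δ, hΔ, hst⟩ := id hU.2.1
  obtain ⟨p, hp1, hp2, hp3⟩ := hss Δ hΔ U hst
  have hpU : ∀ q ∈ LieP R (cu χ), ∀ u ∈ U, q.1 u ∈ U := by
    intro q hq u hu
    have h1 := LieP_comm hsep hΔ hp3 hq u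
    rw [hp2 u hu] at h1
    rw [← h1]
    exact hp1 _
  obtain ⟨pr, hpr⟩ := exists_pr U
  have hnt : Nontrivial U := by
    obtain ⟨u, hu, hu0⟩ := Submodule.exists_mem_ne_zero_of_ne_bot hU.1
    exact ⟨⟨u, hu⟩, 0, fun h => hu0 (congrArg Subtype.val h)⟩
  let Φ : End K X →ₗ[K] End K U :=
    { toFun := fun Y => pr ∘ₗ Y ∘ₗ U.subtype
      map_add' := fun Y Z => by
        apply LinearMap.ext
        intro x
        simp
      map_smul' := fun c Y => by
        apply LinearMap.ext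
        intro x
        simp }
  have hΦ : ∀ q ∈ LieP R (cu χ), ∀ u : U, ((Φ q.1 u : U) : X) = q.1 u := by
    intro q hq u
    exact congrArg Subtype.val (hpr ⟨q.1 u, hpU q hq u u.2⟩)
  let L : Submodule K (End K X) := (LieP R (cu χ)).map (LinearMap.fst K _ _)
  have hLmem : ∀ q ∈ LieP R (cu χ), q.1 ∈ L := fun q hq => ⟨q, hq, rfl⟩
  have hcomm : ∀ x ∈ L.map Φ, ∀ y ∈ L.map Φ, x * y = y * x := by
    rintro _ ⟨_, ⟨q, hq, rfl⟩, rfl⟩ _ ⟨_, ⟨q', hq', rfl⟩, rfl⟩
    obtain ⟨c, hc⟩ := hcon _ (LieP_bracket hq hq')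
    have h1 : Φ q.1 * Φ q'.1 - Φ q'.1 * Φ q.1 = c • (1 : End K U) := by
      apply LinearMap.ext
      intro u
      apply Subtype.ext
      have h3 := hc u u.2
      rw [LinearMap.sub_apply, Submodule.coe_sub, Module.End.mul_apply, Module.End.mul_apply,
        hΦ q hq, hΦ q' hq', hΦ q' hq', hΦ q hq]
      exact h3
    have h4 : LinearMap.trace K U (Φ q.1 * Φ q'.1 - Φ q'.1 * Φ q.1) = 0 := by
      rw [map_sub, LinearMap.trace_mul_comm, sub_self]
    rw [h1, map_smul, LinearMap.trace_one, smul_eq_mul] at h4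
    have h5 : (finrank K U : K) ≠ 0 := Nat.cast_ne_zero.2 (by omega)
    have h6 : c = 0 := (mul_eq_zero.1 h4).resolve_right h5
    rw [h6, zero_smul, sub_eq_zero] at h1
    exact h1
  obtain ⟨e, he0, he⟩ := Pool.Agent.Y126.JB.exists_common (L.map Φ) hcomm
  have hsc := scalar_of_vector hU L (fun g Y hY => by
    obtain ⟨q, hq, rfl⟩ := hY
    exact hLmem _ (LieP_conj hq g)) e.2 (fun h => he0 (Subtype.ext h)) (fun Y hY => by
      obtain ⟨a, ha⟩ := he _ ⟨Y, hY, rfl⟩
      obtain ⟨q, hq, rfl⟩ := hY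
      refine ⟨a, ?_⟩
      have h1 := congrArg Subtype.val ha
      have h3 := hΦ q hq e
      change (LinearMap.fst K _ _ q) (e : X) = a • (e : X)
      exact h3.symm.trans h1)
  -- the eigenvalues on `U`
  have heig : ∀ g : Δ, ∀ a b : K, (∃ x : U, x ≠ 0 ∧ resR R Δ U hst g x = a • x) →
      (∃ x : U, x ≠ 0 ∧ resR R Δ U hst g x = b • x) → ∃ k : ℕ, 0 < k ∧ a ^ k = b ^ k := by
    rintro ⟨g, hg⟩ a b ⟨x, hx0, hx⟩ ⟨y, hy0, hy⟩
    by_contra hno
    push Not at hno
    have hx' : R g x = a • (x : X) := congrArg Subtype.val hx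
    have hy' : R g y = b • (y : X) := congrArg Subtype.val hy
    have hx00 : (x : X) ≠ 0 := fun h => hx0 (Subtype.ext h)
    have hy00 : (y : X) ≠ 0 := fun h => hy0 (Subtype.ext h)
    have hne : ∀ (c : K) (z : X), z ≠ 0 → R g z = c • z → c ≠ 0 := by
      rintro c z hz h rfl
      rw [zero_smul] at h
      exact Rne g hz h
    have ha0 := hne a x hx00 hx'
    have hb0 := hne b y hy00 hy'
    obtain ⟨θ, hθ⟩ := exists_add (Units.mk0 a ha0 * (Units.mk0 b hb0)⁻¹)
      (fun k hk h => hno k hk (by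
        rw [mul_pow, inv_pow, mul_inv_eq_one] at h
        exact congrArg Units.val h))
    have hθ' : ext0 θ a ≠ ext0 θ b := by
      intro h
      apply hθ
      rw [ofMul_mul, ofMul_inv, map_add, map_neg, ← ext0_ne θ ha0, ← ext0_ne θ hb0, h,
        add_neg_cancel]
    obtain ⟨Y, hY, hYP⟩ := exists_slope (ρ := R) (χ := cu χ) g θ
    have hgen : ∀ (w : X) (α : K), R g w = α • w →
        w ∈ Module.End.maxGenEigenspace (R g) α := by
      intro w α h
      refine mem_gen.2 ⟨1, ?_⟩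
      rw [pow_one, LinearMap.sub_apply, h, Module.algebraMap_end_apply, sub_self]
    obtain ⟨c, hc⟩ := hsc _ (hLmem _ hYP)
    have h1 := hc x x.2
    have h3 := hc y y.2
    change Y (x : X) = c • (x : X) at h1
    change Y (y : X) = c • (y : X) at h3
    rw [hY _ _ (hgen x a hx')] at h1
    rw [hY _ _ (hgen y b hy')] at h3
    have h4 : ext0 θ a = c := by
      have h4 : (ext0 θ a - c) • (x : X) = 0 := by rw [sub_smul, h1, sub_self]
      exact sub_eq_zero.1 ((smul_eq_zero.1 h4).resolve_right hx00)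
    have h5 : ext0 θ b = c := by
      have h4 : (ext0 θ b - c) • (y : X) = 0 := by rw [sub_smul, h3, sub_self]
      exact sub_eq_zero.1 ((smul_eq_zero.1 h4).resolve_right hy00)
    exact hθ' (h4.trans h5.symm)
  obtain ⟨m, hm, hbd⟩ := hb
  obtain ⟨H, hH, hHs⟩ := burn (r := resR R Δ U hst) (fun W hW => by
    have h1 : Pot R (W.map U.subtype) := by
      refine ⟨Δ, hΔ, ?_⟩
      rintro g hg _ ⟨w, hw, rfl⟩
      exact ⟨_, hW ⟨g, hg⟩ w hw, rfl⟩
    rcases hU.2.2 (W.map U.subtype) (Submodule.map_subtype_le U W) h1 with h3 | h3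
    · left
      rw [eq_bot_iff]
      intro u hu
      have h4 : (u : X) ∈ W.map U.subtype := ⟨u, hu, rfl⟩
      rw [h3, Submodule.mem_bot] at h4
      rw [Submodule.mem_bot]
      exact Subtype.ext h4
    · right
      rw [eq_top_iff]
      intro u _
      have h4 : (u : X) ∈ W.map U.subtype := by rw [h3]; exact u.2
      obtain ⟨w, hw, hwu⟩ := h4
      have h5 : w = u := Subtype.ext hwu
      rwa [← h5]) hm (fun g a b ha hb => by
    have h1 := heig g a b ha hb
    obtain ⟨x, hx0, hx⟩ := ha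
    obtain ⟨y, hy0, hy⟩ := hb
    exact hbd g.1 a b ⟨x, fun h => hx0 (Subtype.ext h), congrArg Subtype.val hx⟩
      ⟨y, fun h => hy0 (Subtype.ext h), congrArg Subtype.val hy⟩ h1)
  -- a stable line
  have hL1 : Pot R (K ∙ (e : X)) := by
    refine ⟨H.map Δ.subtype, fi_map hΔ H hH, ?_⟩
    rintro _ ⟨g, hg, rfl⟩ u hu
    obtain ⟨c, hc⟩ := hHs g hg
    obtain ⟨a, rfl⟩ := Submodule.mem_span_singleton.1 hu
    have h1 : R g.1 (e : X) = c • (e : X) := by
      have h3 := congrArg (fun f : End K U => ((f e : U) : X)) hc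
      exact h3
    change R g.1 (a • (e : X)) ∈ _
    rw [map_smul, h1]
    exact Submodule.smul_mem _ _ (Submodule.smul_mem _ _ (Submodule.mem_span_singleton_self _))
  rcases hU.2.2 (K ∙ (e : X)) ((Submodule.span_singleton_le_iff_mem _ _).2 e.2) hL1 with h3 | h3
  · rw [Submodule.span_singleton_eq_bot] at h3
    exact he0 (Subtype.ext h3)
  · rw [← h3, finrank_span_singleton (fun h => he0 (Subtype.ext h))] at h2
    omega

end Pool.Agent.K1H13.N
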