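import Mathlib
import Pool.Agent.K1H13.N.Scal

/-!
# Operators of rank one in the Lie algebra, from the forms in four variables
-/

set_option linter.unusedSectionVars false

namespace Pool.Agent.K1H13.N

open Module Finset Function Pool.Agent.H204R3.SP Pool.Agent.H204R3.GP Pool.Agent.H204R3.CM
  Pool.Agent.W522.U Pool.Agent.TH118.CR Pool.Agent.K1H13.D4
open Pool.Agent.TH118.SG (bm)

variable {K : Type} [Field K] [CharZero K] {X : Type} [AddCommGroup X] [Module K X]
  [FiniteDimensional K X] {Γ : Type} [Group Γ] {R : Representation K Γ X} {χ : Γ →* K}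

/-- An operator which kills the factors kills the products. -/
theorem kills_mmG {e : End K X} (σ : Equiv.Perm (Fin 2 × Fin 2))
    {B : Fin 2 → (X →ₗ[K] X →ₗ[K] K)} (h : ∀ l x y, B l (e x) y + B l x (e y) = 0) :
    Kills e (mmG σ B) := by
  intro v
  have h1 : ∀ k, mmG σ B (update v (σ k) (e (v (σ k)))) =
      ∏ l, B l (update (v ∘ σ) k (e ((v ∘ σ) k)) (l, 0)) (update (v ∘ σ) k (e ((v ∘ σ) k)) (l, 1)) := by
    intro k
    rw [mmG_apply]
    refine Finset.prod_congr rfl fun l _ => ?_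
    have h2 : ∀ j, update v (σ k) (e (v (σ k))) (σ j) = update (v ∘ σ) k (e ((v ∘ σ) k)) j := by
      intro j
      by_cases hj : j = k
      · subst hj
        rw [update_self, update_self]
        rfl
      · rw [update_of_ne hj, update_of_ne (fun h3 => hj (σ.injective h3))]
        rfl
    rw [h2, h2]
  rw [← Equiv.sum_comp σ, Finset.sum_congr rfl fun k _ => h1 k, Fintype.sum_prod_type,
    Fin.sum_univ_two, Fin.sum_univ_two, Fin.sum_univ_two]
  simp only [Fin.prod_univ_two]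
  have e1 := h 0 (v (σ (0, 0))) (v (σ (0, 1)))
  have e2 := h 1 (v (σ (1, 0))) (v (σ (1, 1)))
  simp [Function.update]
  linear_combination (B 1 (v (σ (1, 0))) (v (σ (1, 1)))) * e1 +
    (B 0 (v (σ (0, 0))) (v (σ (0, 1)))) * e2

theorem kills_span {e : End K X} {S : Set (MultilinearMap K (fun _ : Fin 2 × Fin 2 => X) K)}
    (h : ∀ φ ∈ S, Kills e φ) {φ : MultilinearMap K (fun _ : Fin 2 × Fin 2 => X) K}
    (hφ : φ ∈ Submodule.span K S) : Kills e φ := by
  induction hφ using Submodule.span_induction with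
  | mem φ hφ => exact h φ hφ
  | zero => exact fun v => Finset.sum_eq_zero fun _ _ => rfl
  | add a b _ _ ha hb =>
    intro v
    have h1 := ha v
    have h2 := hb v
    simp only [add_apply, Finset.sum_add_distrib]
    rw [h1, h2, add_zero]
  | smul c a _ ha =>
    intro v
    have h1 := ha v
    simp only [smul_apply, ← Finset.smul_sum]
    rw [h1, smul_zero]

variable [IsAlgClosed K]

/-- All Tate forms in four variables are combinations of products of Tate forms in two variables. -/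
def FourK (R : Representation K Γ X) (χ : Γ →* K) : Prop :=
  ∀ φ : MultilinearMap K (fun _ : Fin 2 × Fin 2 => X) K, IsTate R χ 2 φ →
    φ ∈ Submodule.span K (PT R χ 2)

/-- Self-dual strongly irreducible subspaces are symplectic. -/
def NoOrth (R : Representation K Γ X) (χ : Γ →* K) : Prop :=
  ∀ U, SI R U → Du R χ U U → ∃ Δ : Subgroup Γ, Δ.FiniteIndex ∧ ∃ B : X →ₗ[K] X →ₗ[K] K,
    (∃ u ∈ U, ∃ v ∈ U, B u v ≠ 0) ∧ (∀ u ∈ U, B u u = 0) ∧
    ∀ g ∈ Δ, ∀ u ∈ U, ∀ v ∈ U, B (R g u) (R g v) = χ g * B u v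

/-- **The products of Tate forms in two variables determine the Lie algebra.** -/
theorem one_of_four {ω : X →ₗ[K] X →ₗ[K] K} (halt : ∀ x, ω x x = 0)
    (hnd : ∀ x, (∀ y, ω x y = 0) → x = 0)
    (hω : ∀ g x y, ω (R g x) (R g y) = χ g * ω x y) (hss : HasProj R) (hb : BddRoots R)
    (h4 : FourK R χ) (hIII : NoOrth R χ)
    {U : Submodule K X} (hU : SI R U) (h2 : 2 ≤ finrank K U) :
    ∃ e ∈ lieT R χ, e * e = 0 ∧ finrank K (U.map e) = 1 := by
  have hskew : ∀ x y, ω x y = -ω y x := by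
    intro x y
    have h1 := halt (x + y)
    simp only [map_add, LinearMap.add_apply, halt] at h1
    linear_combination h1
  obtain ⟨Z, hZ, hZns⟩ := exists_nonscalar' hnd hω hss hb hU h2
  have hsep := sep_of_form hnd hω
  have hZc : ∀ b ∈ Cm R, ∀ x, Z (b x) = b (Z x) := by
    rintro b ⟨Δ, hΔ, hb⟩ x
    exact (LieP_comm hsep hΔ hb (q := (Z, 0)) hZ x).symm
  have hZs : ∀ x y, ω (Z x) y + ω x (Z y) = 0 := by
    intro x y
    have h1 : Semi R (cu χ) 1 (bm ω) := ⟨⊤, inferInstance, fun g _ v => by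
      change ω (R g (v 0)) (R g (v 1)) = _ * ω (v 0) (v 1)
      rw [hω, zpow_one, cu_apply]⟩
    have h3 := mul_bm (Lie_mul hZ h1) x y
    rwa [zero_mul] at h3
  obtain ⟨Δ, hΔ, hst⟩ := id hU.2.1
  obtain ⟨p, hp1, hp2, hp3⟩ := hss Δ hΔ U hst
  -- the pairing
  obtain ⟨U', B, p', u₀, v₀, hP, hcase⟩ : ∃ (U' : Submodule K X) (B : X →ₗ[K] X →ₗ[K] K)
      (p' : End K X) (u₀ v₀ : X), Pr R χ ω U U' B p p' u₀ v₀ ∧
        (¬Du R χ U U ∨ (U = U' ∧ p = p' ∧ ∀ u ∈ U, B u u = 0)) := by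
    by_cases hd : Du R χ U U
    · obtain ⟨Δ', hΔ', B, ⟨u, hu, v, hv, huv⟩, hB0, hB⟩ := hIII U hU hd
      refine ⟨U, B, p, u, (B u v)⁻¹ • v, ⟨hnd, hskew, hω, hss, hU, hU, ⟨Δ', hΔ', hB⟩,
        ⟨Δ, hΔ, hp3⟩, hp1, hp2, ⟨Δ, hΔ, hp3⟩, hp1, hp2, hu, U.smul_mem _ hv, ?_⟩,
        Or.inr ⟨rfl, rfl, hB0⟩⟩
      rw [map_smul, smul_eq_mul, inv_mul_cancel₀ huv]
    · obtain ⟨u, hu, hu0⟩ := Submodule.exists_mem_ne_zero_of_ne_bot hU.1
      obtain ⟨U', hU', v, hv, huv⟩ := exists_ne_on hss (ω u) (fun h => hu0 (hnd u fun v => by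
        rw [h, LinearMap.zero_apply]))
      obtain ⟨Δ', hΔ', hst'⟩ := id hU'.2.1
      obtain ⟨p', hp1', hp2', hp3'⟩ := hss Δ' hΔ' U' hst'
      refine ⟨U', ω, p', u, (ω u v)⁻¹ • v, ⟨hnd, hskew, hω, hss, hU, hU',
        ⟨⊤, inferInstance, fun g _ u _ v _ => hω g u v⟩,
        ⟨Δ, hΔ, hp3⟩, hp1, hp2, ⟨Δ', hΔ', hp3'⟩, hp1', hp2', hu, U'.smul_mem _ hv, ?_⟩,
        Or.inl hd⟩
      rw [map_smul, smul_eq_mul, inv_mul_cancel₀ huv]
  obtain ⟨e, hec, hes, hee, her, c, hc, hZe⟩ := hP.exists_e hcase hZc hZs hZns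
  -- it kills the Tate forms in two variables
  have hinj : Function.Injective ω := by
    rw [injective_iff_map_eq_zero]
    intro x hx
    exact hnd x fun y => by rw [hx, LinearMap.zero_apply]
  let eq := LinearEquiv.ofInjectiveOfFinrankEq ω hinj (Subspace.dual_finrank_eq).symm
  have heq : ∀ x, eq x = ω x := fun _ => rfl
  have hk2 : ∀ D, IsTate2 R χ D → ∀ x y, D (e x) y + D x (e y) = 0 := by
    rintro D ⟨Δ', hΔ', hD⟩ x y
    let b : End K X := eq.symm.toLinearMap ∘ₗ D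
    have hbD : ∀ x y, ω (b x) y = D x y := by
      intro x y
      have h1 : eq (eq.symm (D x)) = D x := eq.apply_symm_apply _
      exact LinearMap.congr_fun h1 y
    have hbC : b ∈ Cm R := by
      refine ⟨Δ', hΔ', fun g hg x => ?_⟩
      rw [← sub_eq_zero]
      refine hnd _ fun y => ?_
      have h1 := hω g (b x) (R g⁻¹ y)
      have h3 := hD g hg x (R g⁻¹ y)
      rw [Rinv'] at h1 h3
      rw [map_sub, LinearMap.sub_apply, hbD, h1, h3, hbD, sub_self]
    rw [← hbD, ← hbD, ← hec b hbC]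
    exact hes _ _
  have hk4 : ∀ φ : MultilinearMap K (fun _ : Fin 2 × Fin 2 => X) K, IsTate R χ 2 φ →
      Kills e φ := by
    intro φ hφ
    refine kills_span (S := PT R χ 2) ?_ (h4 φ hφ)
    rintro _ ⟨σ, B, hB, rfl⟩
    exact kills_mmG σ fun l => hk2 _ (hB l)
  have hN := normalises hnd hω hss hes hk4
  have h5 := hN _ (hN _ hZ)
  have h6 : e * (e * Z - Z * e) - (e * Z - Z * e) * e = (-2 * c) • e := by
    have h7 : e * (e * Z - Z * e) - (e * Z - Z * e) * e =
        (e * e) * Z - (2 : ℕ) • (e * Z * e) + Z * (e * e) := by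
      noncomm_ring
    rw [h7, hee, zero_mul, mul_zero, add_zero, zero_sub, hZe]
    module
  rw [h6] at h5
  have h8 : e ∈ Lie R (cu χ) := by
    have h9 := Submodule.smul_mem _ (-2 * c)⁻¹ h5
    rwa [smul_smul, inv_mul_cancel₀ (mul_ne_zero (by norm_num) hc), one_smul] at h9
  exact ⟨e, Lie_le h8, hee, her⟩

end Pool.Agent.K1H13.N
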