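import Mathlib
import Pool.Agent.K1H13.N.One

/-!
# There are no proper twists
-/

set_option linter.unusedSectionVars false

namespace Pool.Agent.K1H13.N

open Module Finset Function Pool.Agent.H204R3.SP Pool.Agent.H204R3.GP Pool.Agent.H204R3.CM
  Pool.Agent.W522.U Pool.Agent.TH118.CR Pool.Agent.K1H13.D4

variable {K : Type} [Field K] [CharZero K] {X : Type} [AddCommGroup X] [Module K X]
  [FiniteDimensional K X] {Γ : Type} [Group Γ] {R : Representation K Γ X} {χ : Γ →* K}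

theorem mmG_zero {v : Fin 2 × Fin 2 → X} (h : ∀ B, IsTate2 R χ B → ∀ k, k ≠ (0, 0) →
    B (v (0, 0)) (v k) = 0 ∧ B (v k) (v (0, 0)) = 0) (σ : Equiv.Perm (Fin 2 × Fin 2))
    {B : Fin 2 → (X →ₗ[K] X →ₗ[K] K)} (hB : ∀ l, IsTate2 R χ (B l)) : mmG σ B v = 0 := by
  obtain ⟨⟨l, j⟩, hlj⟩ := σ.surjective (0, 0)
  rw [mmG_apply]
  refine Finset.prod_eq_zero (Finset.mem_univ l) ?_
  fin_cases j
  · have h1 : σ (l, 1) ≠ (0, 0) := by
      rw [← hlj]
      intro h2
      have h3 := σ.injective h2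
      simp at h3
    have h2 := (h (B l) (hB l) _ h1).1
    rw [← hlj] at h2
    exact h2
  · have h1 : σ (l, 0) ≠ (0, 0) := by
      rw [← hlj]
      intro h2
      have h3 := σ.injective h2
      simp at h3
    have h2 := (h (B l) (hB l) _ h1).2
    rw [← hlj] at h2
    exact h2

theorem span_zero {v : Fin 2 × Fin 2 → X} (h : ∀ B, IsTate2 R χ B → ∀ k, k ≠ (0, 0) →
    B (v (0, 0)) (v k) = 0 ∧ B (v k) (v (0, 0)) = 0)
    {φ : MultilinearMap K (fun _ : Fin 2 × Fin 2 => X) K}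
    (hφ : φ ∈ Submodule.span K (PT R χ 2)) : φ v = 0 := by
  induction hφ using Submodule.span_induction with
  | mem φ hφ =>
    obtain ⟨σ, B, hB, rfl⟩ := hφ
    exact mmG_zero h σ hB
  | zero => rfl
  | add a b _ _ ha hb => rw [add_apply, ha, hb, add_zero]
  | smul c a _ ha => rw [smul_apply, ha, smul_zero]

variable [IsAlgClosed K]

theorem tate2_inv {B : X →ₗ[K] X →ₗ[K] K} (hB : IsTate2 R χ B) (U U' : Submodule K X) :
    Inv R χ B U U' := by
  obtain ⟨Δ, hΔ, h⟩ := hB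
  exact ⟨Δ, hΔ, fun g hg u _ v _ => h g hg u v⟩

/-- **Proper twists give additional forms in four variables.** -/
theorem no_twist {ω : X →ₗ[K] X →ₗ[K] K} (halt : ∀ x, ω x x = 0)
    (hnd : ∀ x, (∀ y, ω x y = 0) → x = 0)
    (hω : ∀ g x y, ω (R g x) (R g y) = χ g * ω x y) (hss : HasProj R)
    (h4 : FourK R χ) {U U' : Submodule K X} (hU : SI R U) (hU' : SI R U')
    (h3 : 3 ≤ finrank K U) {ψ : Γ → K} (ht : Tw R ψ U U') : Tw R (fun _ => 1) U U' := by
  by_contra hne
  have hnd' : ∀ x, (∀ y, ω y x = 0) → x = 0 := by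
    intro x h
    refine hnd x fun y => ?_
    have h1 := halt (x + y)
    simp only [map_add, LinearMap.add_apply, halt, h] at h1
    linear_combination h1
  obtain ⟨Δ', hΔ', S, hSU, hS0, hS⟩ := ht.symm hU hU'
  obtain ⟨Δ, hΔ, T, hTU, hT0, hT⟩ := ht
  -- the duals
  have hdual : ∀ A : Submodule K X, SI R A → ∃ W, SI R W ∧ (∃ u ∈ A, ∃ v ∈ W, ω u v ≠ 0) := by
    intro A hA
    obtain ⟨u, hu, hu0⟩ := Submodule.exists_mem_ne_zero_of_ne_bot hA.1
    obtain ⟨W, hW, v, hv, huv⟩ := exists_ne_on hss (ω u) (fun h => hu0 (hnd u fun v => by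
      rw [h, LinearMap.zero_apply]))
    exact ⟨W, hW, u, hu, v, hv, huv⟩
  obtain ⟨W, hW, hUW⟩ := hdual U hU
  obtain ⟨W', hW', hUW'⟩ := hdual U' hU'
  have hprj : ∀ A : Submodule K X, SI R A → ∃ p : End K X, (∀ v, p v ∈ A) ∧ (∀ u ∈ A, p u = u) ∧
      ∃ Δ : Subgroup Γ, Δ.FiniteIndex ∧ ∀ s ∈ Δ, ∀ v, p (R s v) = R s (p v) := by
    intro A hA
    obtain ⟨D, hD, hst⟩ := id hA.2.1
    obtain ⟨p, hp1, hp2, hp3⟩ := hss D hD A hst
    exact ⟨p, hp1, hp2, D, hD, hp3⟩
  obtain ⟨p, hp1, hp2, Δ1, hΔ1, hp3⟩ := hprj U hU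
  obtain ⟨p', hp1', hp2', Δ2, hΔ2, hp3'⟩ := hprj U' hU'
  obtain ⟨q, hq1, hq2, Δ3, hΔ3, hq3⟩ := hprj W hW
  obtain ⟨q', hq1', hq2', Δ4, hΔ4, hq3'⟩ := hprj W' hW'
  obtain ⟨D, hD, hDU⟩ := id hU.2.1
  have hinv : ∀ A A' : Submodule K X, Inv R χ ω A A' := fun A A' =>
    ⟨⊤, inferInstance, fun g _ u _ v _ => hω g u v⟩
  have hdu : ∀ A A' : Submodule K X, (∃ u ∈ A, ∃ v ∈ A', ω u v ≠ 0) → Du R χ A A' := fun A A' h =>
    ⟨⊤, inferInstance, ω, h, fun g _ u _ v _ => hω g u v⟩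
  -- the form in four variables
  let φ0 : MultilinearMap K (fun _ : Fin 2 × Fin 2 => X) K :=
    { toFun := fun v => ω (T (p (v (0, 0)))) (q' (v (1, 1))) * ω (S (p' (v (1, 0)))) (q (v (0, 1)))
      map_update_add' := by
        intro _ v l x y
        obtain ⟨i, j⟩ := l
        fin_cases i <;> fin_cases j <;>
        simp [Function.update, add_mul, mul_add]
      map_update_smul' := by
        intro _ v l c x
        obtain ⟨i, j⟩ := l
        fin_cases i <;> fin_cases j <;>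
        simp [Function.update] <;> ring }
  have hφ0 : ∀ v, φ0 v = ω (T (p (v (0, 0)))) (q' (v (1, 1))) *
      ω (S (p' (v (1, 0)))) (q (v (0, 1))) := fun _ => rfl
  have hφT : IsTate R χ 2 φ0 := by
    refine ⟨(Δ ⊓ Δ') ⊓ ((Δ1 ⊓ Δ2) ⊓ (Δ3 ⊓ Δ4)) ⊓ D, inferInstance, fun g hg v => ?_⟩
    obtain ⟨⟨⟨hg1, hg2⟩, ⟨hg3, hg4⟩, hg5, hg6⟩, hg7⟩ := hg
    have hψ : ψ g ≠ 0 := tw_ne hU hΔ hT0 hT hg1 (hDU g hg7)
    rw [hφ0, hφ0, hp3 g hg3, hp3' g hg4, hq3 g hg5, hq3' g hg6, hT g hg1 _ (hp1 _),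
      hS g hg2 _ (hp1' _), map_smul, map_smul, LinearMap.smul_apply, LinearMap.smul_apply, hω, hω,
      smul_eq_mul, smul_eq_mul]
    field_simp
  have hmem := h4 φ0 hφT
  -- no duality between `U` and `W'`
  have hUW0 : ¬Du R χ U W' := by
    intro h
    exact hne ((Du.tw hW' hU hU' h.symm (hdu _ _ hUW').symm))
  obtain ⟨ΔU, hΔU, hstU⟩ := id hU.2.1
  -- a form on `U × U'`
  obtain ⟨β, hβ⟩ : ∃ β : X →ₗ[K] X →ₗ[K] K, ∀ B, IsTate2 R χ B → ∀ u ∈ U, ∀ u' ∈ U',
      β u u' = 0 → B u u' = 0 ∧ B u' u = 0 := by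
    by_cases hd : Du R χ U U'
    · obtain ⟨Δb, hΔb, β, hβ0, hβ⟩ := hd
      refine ⟨β, fun B hB u hu u' hu' h => ?_⟩
      obtain ⟨c, hc⟩ := schur_pair hU hU' ⟨Δb, hΔb, hβ⟩ (tate2_inv hB U U') hβ0
      obtain ⟨c', hc'⟩ := schur_pair hU hU' ⟨Δb, hΔb, hβ⟩ (tate2_inv hB U' U).flip hβ0
      have e1 := hc u hu u' hu'
      have e2 := hc' u hu u' hu'
      rw [h, mul_zero] at e1 e2
      exact ⟨e1, e2⟩
    · refine ⟨0, fun B hB u hu u' hu' _ => ⟨?_, ?_⟩⟩
      · by_contra h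
        obtain ⟨Δb, hΔb, hBi⟩ := tate2_inv hB U U'
        exact hd ⟨Δb, hΔb, B, ⟨u, hu, u', hu', h⟩, hBi⟩
      · by_contra h
        obtain ⟨Δb, hΔb, hBi⟩ := (tate2_inv hB U' U).flip
        exact hd ⟨Δb, hΔb, B.flip, ⟨u, hu, u', hu', h⟩, hBi⟩
  have hlW := du_left hU hW.2.1 (inferInstance : (⊤ : Subgroup Γ).FiniteIndex) hUW
    (fun g _ u _ v _ => hω g u v)
  have hlW' := du_left hU' hW'.2.1 (inferInstance : (⊤ : Subgroup Γ).FiniteIndex) hUW'
    (fun g _ u _ v _ => hω g u v)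
  have hTi := tw_inj hU hΔ hT0 hT
  have hSi := tw_inj hU' hΔ' hS0 hS
  obtain ⟨u, hu, hu0⟩ := Submodule.exists_mem_ne_zero_of_ne_bot hU.1
  -- the vector of `U'`
  obtain ⟨u', hu', hβu, hSu⟩ : ∃ u' ∈ U', β u u' = 0 ∧ ∀ c : K, S u' ≠ c • u := by
    by_contra hcon
    push Not at hcon
    have hfin : finrank K U' = finrank K U := by
      have h1 := tw_map hU hU' hΔ hTU hT0 hT
      rw [← h1]
      have h5 : Function.Injective (T.domRestrict U) := by
        rw [injective_iff_map_eq_zero]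
        intro x hx
        exact Subtype.ext (hTi x x.2 hx)
      have h6 := LinearMap.finrank_range_of_inj h5
      rwa [LinearMap.range_domRestrict] at h6
    let N : Submodule K X := U' ⊓ LinearMap.ker (β u)
    have hN : finrank K U' ≤ finrank K N + 1 := by
      have h1 := LinearMap.finrank_range_add_finrank_ker ((β u).domRestrict U')
      have h5 : finrank K (LinearMap.range ((β u).domRestrict U')) ≤ 1 := by
        refine (Submodule.finrank_le _).trans ?_
        rw [finrank_self]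
      have h6 : finrank K (LinearMap.ker ((β u).domRestrict U')) ≤ finrank K N := by
        rw [← LinearMap.finrank_range_of_inj
          (f := U'.subtype ∘ₗ (LinearMap.ker ((β u).domRestrict U')).subtype) (by
            exact U'.injective_subtype.comp (Submodule.injective_subtype _))]
        apply Submodule.finrank_mono
        rintro _ ⟨x, rfl⟩
        exact ⟨x.1.2, x.2⟩
      omega
    have hN2 : finrank K N ≤ 1 := by
      have h5 : Function.Injective (S.domRestrict N) := by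
        rw [injective_iff_map_eq_zero]
        intro x hx
        exact Subtype.ext (hSi x x.2.1 hx)
      rw [← LinearMap.finrank_range_of_inj h5]
      have h6 : LinearMap.range (S.domRestrict N) ≤ K ∙ u := by
        rintro _ ⟨x, rfl⟩
        obtain ⟨c, hc⟩ := hcon x.1 x.2.1 x.2.2
        change S x.1 ∈ _
        rw [hc]
        exact Submodule.smul_mem _ _ (Submodule.mem_span_singleton_self _)
      refine (Submodule.finrank_mono h6).trans ?_
      rw [finrank_span_singleton hu0]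
    omega
  -- the vector of `W`
  obtain ⟨w, hw, huw, hSw⟩ : ∃ w ∈ W, ω u w = 0 ∧ ω (S u') w ≠ 0 := by
    by_contra hcon
    push Not at hcon
    obtain ⟨w1, hw1, huw1⟩ : ∃ w ∈ W, ω u w ≠ 0 := by
      by_contra hcon2
      push Not at hcon2
      exact hu0 (hlW u hu hcon2)
    apply hSu (ω (S u') w1 / ω u w1)
    rw [← sub_eq_zero]
    refine hlW _ (U.sub_mem (hSU u' hu') (U.smul_mem _ hu)) fun v hv => ?_
    have h2 := hcon (v - (ω u v / ω u w1) • w1) (W.sub_mem hv (W.smul_mem _ hw1)) (by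
      rw [map_sub, map_smul, smul_eq_mul, div_mul_cancel₀ _ huw1, sub_self])
    rw [map_sub, map_smul, smul_eq_mul] at h2
    rw [map_sub, LinearMap.sub_apply, map_smul, LinearMap.smul_apply, smul_eq_mul]
    linear_combination h2
  obtain ⟨w', hw', hTw⟩ : ∃ w' ∈ W', ω (T u) w' ≠ 0 := by
    by_contra hcon
    push Not at hcon
    exact hu0 (hTi u hu (hlW' _ (hTU u hu) hcon))
  -- evaluate
  have hz := span_zero (R := R) (χ := χ) (v := fun k => if k = (0, 0) then u else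
    if k = (0, 1) then w else if k = (1, 0) then u' else w') (fun B hB k hk => by
      have e0 : ((if ((0, 0) : Fin 2 × Fin 2) = (0, 0) then u else
        if ((0, 0) : Fin 2 × Fin 2) = (0, 1) then w else
        if ((0, 0) : Fin 2 × Fin 2) = (1, 0) then u' else w')) = u := if_pos rfl
      simp only [e0, if_neg hk]
      by_cases h1 : k = (0, 1)
      · simp only [if_pos h1]
        obtain ⟨c, hc⟩ := schur_pair hU hW (hinv U W) (tate2_inv hB U W) hUW
        obtain ⟨c', hc'⟩ := schur_pair hU hW (hinv U W) (tate2_inv hB W U).flip hUW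
        have e1 := hc u hu w hw
        have e2 := hc' u hu w hw
        rw [huw, mul_zero] at e1 e2
        exact ⟨e1, e2⟩
      · simp only [if_neg h1]
        by_cases h2 : k = (1, 0)
        · simp only [if_pos h2]
          exact hβ B hB u hu u' hu' hβu
        · simp only [if_neg h2]
          constructor
          · by_contra h
            obtain ⟨Δb, hΔb, hBi⟩ := tate2_inv hB U W'
            exact hUW0 ⟨Δb, hΔb, B, ⟨u, hu, w', hw', h⟩, hBi⟩
          · by_contra h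
            obtain ⟨Δb, hΔb, hBi⟩ := (tate2_inv hB W' U).flip
            exact hUW0 ⟨Δb, hΔb, B.flip, ⟨u, hu, w', hw', h⟩, hBi⟩) hmem
  rw [hφ0] at hz
  simp at hz
  rw [hp2 u hu, hq2' w' hw', hp2' u' hu', hq2 w hw] at hz
  exact hz.elim hTw hSw

end Pool.Agent.K1H13.N
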