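import Mathlib
import Pool.Agent.K1H13.N.Twist
import Pool.Agent.K1H13.N.Min
import Pool.Agent.Y126.Notions

/-!
# From the classes in degree four on the fourth power to forms in four variables
-/

set_option linter.unusedSectionVars false

namespace Pool.Agent.K1H13.N

open Module TensorProduct Finset Function Pool.Agent.H204R3.SP Pool.Agent.H204R3.GP
  Pool.Agent.H204R3.CM Pool.Agent.W522.U Pool.Agent.TH118.CR Pool.Agent.Y126.Notions

noncomputable section

theorem bdd_bcr {ℓ : ℕ} [Fact ℓ.Prime] {V Γ : Type} [AddCommGroup V] [Module ℚ_[ℓ] V]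
    [FiniteDimensional ℚ_[ℓ] V] [Group Γ] (ρ : Representation ℚ_[ℓ] Γ V) :
    BddRoots (bcr ρ (AlgebraicClosure ℚ_[ℓ])) := by
  obtain ⟨m, hm, h⟩ := eig_bound (ℓ := ℓ) (V := V)
  refine ⟨m, hm, fun g a b ha hb hab => h (ρ g) a b ha hb ?_ hab⟩
  rintro rfl
  obtain ⟨x, hx0, hx⟩ := hb
  rw [zero_smul] at hx
  exact Rne (R := bcr ρ (AlgebraicClosure ℚ_[ℓ])) g hx0 hx

/-- Alternating forms on a line vanish. -/
theorem line_alt {K X : Type} [Field K] [AddCommGroup X] [Module K X] {U : Submodule K X}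
    (h : finrank K U = 1) {B : X →ₗ[K] X →ₗ[K] K} (hB : ∀ u ∈ U, B u u = 0) {u v : X}
    (hu : u ∈ U) (hv : v ∈ U) : B u v = 0 := by
  obtain ⟨w, hw0, hw1⟩ := (finrank_eq_one_iff' (K := K) (V := U)).1 h
  obtain ⟨a, ha⟩ := hw1 ⟨u, hu⟩
  obtain ⟨b, hb⟩ := hw1 ⟨v, hv⟩
  have ha' : u = a • (w : X) := (congrArg Subtype.val ha).symm
  have hb' : v = b • (w : X) := (congrArg Subtype.val hb).symm
  rw [ha', hb', map_smul, map_smul, LinearMap.smul_apply, hB _ w.2, smul_zero, smul_zero]

section ext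

variable {k : Type} [Field k] [CharZero k] {V : Type} [AddCommGroup V] [Module k V]
  [FiniteDimensional k V] {Γ : Type} [Group Γ] (ρ : Representation k Γ V) (χ : Γ →* k)
  {K : Type} [Field K] [CharZero K] [Algebra k K]

theorem bcb_tate2 {B : V →ₗ[k] V →ₗ[k] k} (hB : IsTate2 ρ χ B) :
    IsTate2 (bcr ρ K) (bcc χ K) (bcb K B) := by
  obtain ⟨Δ, hΔ, h⟩ := hB
  refine ⟨Δ, hΔ, fun s hs u v => ?_⟩
  induction u with
  | zero => simp only [map_zero, LinearMap.zero_apply, mul_zero]
  | add u u' hu hu' => simp only [map_add, LinearMap.add_apply, hu, hu', mul_add]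
  | tmul a u =>
    induction v with
    | zero => simp only [map_zero, mul_zero]
    | add v v' hv hv' => simp only [map_add, hv, hv', mul_add]
    | tmul c v =>
      rw [bcr_tmul, bcr_tmul, bcb_tmul, bcb_tmul, h s hs, bcc_apply, mul_smul,
        Algebra.smul_def (χ s)]

variable {ν : Type} [Fintype ν] [DecidableEq ν] (b : Basis ν k V)

theorem bcm_mmG {m : ℕ} (σ : Equiv.Perm (Fin m × Fin 2)) (B : Fin m → (V →ₗ[k] V →ₗ[k] k)) :
    bcm (Ω := K) b (mmG σ B) = mmG σ (fun l => bcb K (B l)) := by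
  refine Basis.ext_multilinear (fun _ => b.baseChange K) fun I => ?_
  have h1 := bcm_basis (Ω := K) b (mmG σ B) I
  rw [h1, mmG_apply, mmG_apply, map_prod]
  refine Finset.prod_congr rfl fun l _ => ?_
  rw [Basis.baseChange_apply, Basis.baseChange_apply, bcb_one]

theorem bcm_span {m : ℕ} {φ : MultilinearMap k (fun _ : Fin m × Fin 2 => V) k}
    (hφ : φ ∈ Submodule.span k (PT ρ χ m)) :
    bcm (Ω := K) b φ ∈ Submodule.span K (PT (bcr ρ K) (bcc χ K) m) := by
  induction hφ using Submodule.span_induction with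
  | mem φ hφ =>
    obtain ⟨σ, B, hB, rfl⟩ := hφ
    rw [bcm_mmG]
    exact Submodule.subset_span ⟨σ, _, fun l => bcb_tate2 ρ χ (hB l), rfl⟩
  | zero =>
    have h1 : bcm (Ω := K) b (0 : MultilinearMap k (fun _ : Fin m × Fin 2 => V) k) = 0 := by
      refine Basis.ext_multilinear (fun _ => b.baseChange K) fun I => ?_
      have h1 := bcm_basis (Ω := K) b (0 : MultilinearMap k (fun _ : Fin m × Fin 2 => V) k) I
      rw [h1]
      exact map_zero _
    rw [h1]
    exact Submodule.zero_mem _
  | add x y _ _ hx hy =>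
    have h1 : bcm (Ω := K) b (x + y) = bcm (Ω := K) b x + bcm (Ω := K) b y := by
      refine Basis.ext_multilinear (fun _ => b.baseChange K) fun I => ?_
      rw [add_apply]
      have h1 := bcm_basis (Ω := K) b (x + y) I
      have h2 := bcm_basis (Ω := K) b x I
      have h3 := bcm_basis (Ω := K) b y I
      rw [h1, h2, h3, ← map_add]
      rfl
    rw [h1]
    exact Submodule.add_mem _ hx hy
  | smul c x _ hx =>
    have h1 : bcm (Ω := K) b (c • x) = algebraMap k K c • bcm (Ω := K) b x := by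
      refine Basis.ext_multilinear (fun _ => b.baseChange K) fun I => ?_
      rw [smul_apply]
      have h1 := bcm_basis (Ω := K) b (c • x) I
      have h2 := bcm_basis (Ω := K) b x I
      rw [h1, h2, smul_eq_mul, ← map_mul]
      rfl
    rw [h1]
    exact Submodule.smul_mem _ _ hx

/-- The statement about forms in four variables descends. -/
theorem four_ext
    (h : ∀ φ : MultilinearMap k (fun _ : Fin 2 × Fin 2 => V) k, IsTate ρ χ 2 φ →
      φ ∈ Submodule.span k (PT ρ χ 2)) : FourK (bcr ρ K) (bcc χ K) := by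
  classical
  intro Φ hΦ
  let b := Module.finBasis k V
  let inc : V →ₗ[k] K ⊗[k] V := TensorProduct.mk k K V 1
  let F : MultilinearMap k (fun _ : Fin 2 × Fin 2 => V) K :=
    (Φ.restrictScalars k).compLinearMap (fun _ => inc)
  have hF : ∀ v, F v = Φ (fun l => (1 : K) ⊗ₜ[k] v l) := fun _ => rfl
  let W : Submodule k K := Submodule.span k (Set.range fun I : Fin 2 × Fin 2 → Fin (finrank k V) =>
    F (fun l => b (I l)))
  have hWf : FiniteDimensional k W := FiniteDimensional.span_of_finite k (Set.finite_range _)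
  obtain ⟨π, hπ⟩ := LinearMap.exists_leftInverse_of_injective W.subtype
    (LinearMap.ker_eq_bot.2 W.injective_subtype)
  let w := Module.finBasis k W
  let φ : Fin (finrank k W) → MultilinearMap k (fun _ : Fin 2 × Fin 2 => V) k := fun s =>
    ((w.coord s) ∘ₗ π).compMultilinearMap F
  have hφ : ∀ s v, φ s v = w.coord s (π (F v)) := fun _ _ => rfl
  have hexp : ∀ I : Fin 2 × Fin 2 → Fin (finrank k V), F (fun l => b (I l)) =
      ∑ s, (w s : K) * algebraMap k K (φ s (fun l => b (I l))) := by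
    intro I
    have h1 : F (fun l => b (I l)) ∈ W := Submodule.subset_span ⟨I, rfl⟩
    have h2 : π (F (fun l => b (I l))) = ⟨_, h1⟩ := LinearMap.congr_fun hπ ⟨_, h1⟩
    have h3 := w.sum_repr ⟨_, h1⟩
    have h4 := congrArg (Subtype.val) h3
    refine h4.symm.trans ?_
    rw [AddSubmonoidClass.coe_finsetSum]
    refine Finset.sum_congr rfl fun s _ => ?_
    rw [hφ, h2, Submodule.coe_smul, Algebra.smul_def, mul_comm]
    rfl
  have hsum : Φ = ∑ s, (w s : K) • bcm (Ω := K) b (φ s) := by
    refine Basis.ext_multilinear (fun _ => b.baseChange K) fun I => ?_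
    have h1 : Φ (fun l => b.baseChange K (I l)) = F (fun l => b (I l)) := by
      rw [hF]
      congr 1
      funext l
      rw [Basis.baseChange_apply]
    rw [h1, hexp, _root_.sum_apply]
    refine Finset.sum_congr rfl fun s _ => ?_
    have h2 := bcm_basis (Ω := K) b (φ s) I
    rw [smul_apply, smul_eq_mul, h2]
  rw [hsum]
  refine Submodule.sum_mem _ fun s _ => Submodule.smul_mem _ _ (bcm_span ρ χ b (h _ ?_))
  obtain ⟨Δ, hΔ, h1⟩ := hΦ
  refine ⟨Δ, hΔ, fun g hg v => ?_⟩
  have h2 := h1 g hg (fun l => (1 : K) ⊗ₜ[k] v l)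
  have h3 : F (fun l => ρ g (v l)) = (χ g ^ 2) • F v := by
    rw [hF, hF, Algebra.smul_def, map_pow]
    exact h2
  rw [hφ, hφ, h3, map_smul, map_smul, smul_eq_mul]

end ext

section alt

variable {k : Type} [Field k] [CharZero k] {V : Type} [AddCommGroup V] [Module k V]
  {Γ : Type} [Group Γ] {ρ : Representation k Γ V} {χ : Γ →* k}

/-- All Tate classes of codimension two on the fourth power are combinations of products of two Tate
classes of degree two. -/
def GeneratedOnFourthPower (ρ : Representation k Γ V) (χ : Γ →* k) : Prop :=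
  ∀ f : (Fin 4 → V) [⋀^Fin 2 × Fin 2]→ₗ[k] k, IsTateClass ρ χ f →
    f ∈ Submodule.span k {g : (Fin 4 → V) [⋀^Fin 2 × Fin 2]→ₗ[k] k |
      ∃ B : Fin 2 → (Fin 4 → V) [⋀^Fin 2]→ₗ[k] k, (∀ l, IsTateClassTwo ρ χ (B l)) ∧
        ∀ v, g v = ∑ σ : Equiv.Perm (Fin 2 × Fin 2), ((Equiv.Perm.sign σ : ℤ) : k) *
          ∏ l, B l ![v (σ (l, 0)), v (σ (l, 1))]}

theorem up0 {E : Type} (x y z : E) : Function.update ![x, y] 0 z = ![z, y] := by
  funext j
  fin_cases j <;> rfl

theorem up1 {E : Type} (x y z : E) : Function.update ![x, y] 1 z = ![x, z] := by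
  funext j
  fin_cases j <;> rfl

/-- The numbering of the four factors. -/
def cc : Fin 2 × Fin 2 ≃ Fin 4 := (finProdFinEquiv : Fin 2 × Fin 2 ≃ Fin (2 * 2))

/-- The restriction to the four factors. -/
def rs : ((Fin 4 → V) [⋀^Fin 2 × Fin 2]→ₗ[k] k) →ₗ[k]
    MultilinearMap k (fun _ : Fin 2 × Fin 2 => V) k where
  toFun f := f.toMultilinearMap.compLinearMap (fun l => LinearMap.single k (fun _ => V) (cc l))
  map_add' _ _ := rfl
  map_smul' _ _ := rfl

theorem rs_apply (f : (Fin 4 → V) [⋀^Fin 2 × Fin 2]→ₗ[k] k) (v : Fin 2 × Fin 2 → V) :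
    rs (k := k) (V := V) f v = f (fun l => Pi.single (cc l) (v l)) := rfl

theorem four_of_power (h : GeneratedOnFourthPower ρ χ) :
    ∀ φ : MultilinearMap k (fun _ : Fin 2 × Fin 2 => V) k, IsTate ρ χ 2 φ →
      φ ∈ Submodule.span k (PT ρ χ 2) := by
  classical
  intro φ hφ
  let P : MultilinearMap k (fun _ : Fin 2 × Fin 2 => (Fin 4 → V)) k :=
    φ.compLinearMap (fun l => LinearMap.proj (cc l))
  let f := MultilinearMap.alternatization P
  have hf : ∀ v, f v = ∑ σ : Equiv.Perm (Fin 2 × Fin 2),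
      Equiv.Perm.sign σ • φ (fun l => v (σ l) (cc l)) := by
    intro v
    rw [MultilinearMap.alternatization_apply]
    rfl
  have hres : rs (k := k) (V := V) f = φ := by
    refine MultilinearMap.ext fun v => ?_
    rw [rs_apply, hf, Finset.sum_eq_single (1 : Equiv.Perm (Fin 2 × Fin 2))]
    · rw [Equiv.Perm.sign_one, one_smul]
      congr 1
      funext l
      rw [Equiv.Perm.one_apply, Pi.single_eq_same]
    · intro σ _ hσ
      obtain ⟨l, hl⟩ : ∃ l, σ l ≠ l := by
        by_contra hcon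
        push Not at hcon
        exact hσ (Equiv.ext hcon)
      have h1 : φ (fun l => (Pi.single (cc (σ l)) (v (σ l)) : Fin 4 → V) (cc l)) = 0 := by
        refine φ.map_coord_zero l ?_
        exact Pi.single_eq_of_ne (fun h => hl (cc.injective h).symm) _
      rw [h1, smul_zero]
    · intro h
      exact absurd (Finset.mem_univ _) h
  have hfT : IsTateClass ρ χ f := by
    obtain ⟨Δ, hΔ, h1⟩ := hφ
    refine ⟨Δ, hΔ, fun s hs v => ?_⟩
    rw [hf, hf, Finset.mul_sum]
    refine Finset.sum_congr rfl fun σ _ => ?_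
    rw [h1 s hs, mul_smul_comm]
  have h1 := h f hfT
  rw [← hres]
  have h2 : Submodule.span k {g : (Fin 4 → V) [⋀^Fin 2 × Fin 2]→ₗ[k] k |
      ∃ B : Fin 2 → (Fin 4 → V) [⋀^Fin 2]→ₗ[k] k, (∀ l, IsTateClassTwo ρ χ (B l)) ∧
        ∀ v, g v = ∑ σ : Equiv.Perm (Fin 2 × Fin 2), ((Equiv.Perm.sign σ : ℤ) : k) *
          ∏ l, B l ![v (σ (l, 0)), v (σ (l, 1))]} ≤
      (Submodule.span k (PT ρ χ 2)).comap (rs (k := k) (V := V)) := by
    rw [Submodule.span_le]
    rintro g ⟨B, hB, hg⟩
    change rs (k := k) (V := V) g ∈ Submodule.span k (PT ρ χ 2)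
    let B' : Equiv.Perm (Fin 2 × Fin 2) → Fin 2 → (V →ₗ[k] V →ₗ[k] k) := fun σ l =>
      LinearMap.mk₂ k (fun x y => B l ![Pi.single (cc (σ (l, 0))) x, Pi.single (cc (σ (l, 1))) y])
        (fun x x' y => by
          rw [Pi.single_add]
          have := (B l).map_update_add
            ![Pi.single (cc (σ (l, 0))) x, Pi.single (cc (σ (l, 1))) y] 0
            (Pi.single (cc (σ (l, 0))) x) (Pi.single (cc (σ (l, 0))) x')
          rwa [up0, up0, up0] at this)
        (fun c x y => by
          rw [Pi.single_smul]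
          have := (B l).map_update_smul
            ![Pi.single (cc (σ (l, 0))) x, Pi.single (cc (σ (l, 1))) y] 0 c
            (Pi.single (cc (σ (l, 0))) x)
          rwa [up0, up0] at this)
        (fun x y y' => by
          rw [Pi.single_add]
          have := (B l).map_update_add
            ![Pi.single (cc (σ (l, 0))) x, Pi.single (cc (σ (l, 1))) y] 1
            (Pi.single (cc (σ (l, 1))) y) (Pi.single (cc (σ (l, 1))) y')
          rwa [up1, up1, up1] at this)
        (fun c x y => by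
          rw [Pi.single_smul]
          have := (B l).map_update_smul
            ![Pi.single (cc (σ (l, 0))) x, Pi.single (cc (σ (l, 1))) y] 1 c
            (Pi.single (cc (σ (l, 1))) y)
          rwa [up1, up1] at this)
    have hB' : ∀ σ l x y, B' σ l x y =
        B l ![Pi.single (cc (σ (l, 0))) x, Pi.single (cc (σ (l, 1))) y] := fun _ _ _ _ => rfl
    have h3 : rs (k := k) (V := V) g = ∑ σ : Equiv.Perm (Fin 2 × Fin 2), ((Equiv.Perm.sign σ : ℤ) : k) •
        mmG σ (B' σ) := by
      refine MultilinearMap.ext fun v => ?_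
      rw [rs_apply, hg, _root_.sum_apply]
      refine Finset.sum_congr rfl fun σ _ => ?_
      rw [smul_apply, mmG_apply, smul_eq_mul]
      rfl
    rw [h3]
    refine Submodule.sum_mem _ fun σ _ => Submodule.smul_mem _ _
      (Submodule.subset_span ⟨σ, _, fun l => ?_, rfl⟩)
    obtain ⟨Δ, hΔ, h4⟩ := hB l
    refine ⟨Δ, hΔ, fun s hs x y => ?_⟩
    have h5 := h4 s hs ![Pi.single (cc (σ (l, 0))) x, Pi.single (cc (σ (l, 1))) y]
    rw [hB', hB', ← h5]
    congr 1
    funext j i
    have h6 : ∀ (c : Fin 4) (x : V), (Pi.single c (ρ s x) : Fin 4 → V) i =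
        ρ s ((Pi.single c x : Fin 4 → V) i) := by
      intro c x
      by_cases h : i = c
      · subst h
        rw [Pi.single_eq_same, Pi.single_eq_same]
      · rw [Pi.single_eq_of_ne h, Pi.single_eq_of_ne h, map_zero]
    fin_cases j
    · exact h6 _ _
    · exact h6 _ _
  exact h2 h1

end alt

end

end Pool.Agent.K1H13.N
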